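import Pool.Agent.LibPS62.S7

/-!
# [PO57 S8] The scale lemma (assembly)

Choose `δ > 0` and an even `m > 0` with
`N * J * (4 * (c + C) ^ 2 / (m * t ^ 2)) + N ^ 2 * J * (2 * δ / t) ≤ 1 / 2`, then `R > 0` with
`(c + C) * J ≤ R * δ`, `Kmax = m * (2 * m) ^ R`. `exists_scale` with `L = 2 * Kmax` gives `i < R`;
`k = (2 * m) ^ i`, `K = m * k ≤ Kmax`; `good_prob`.
-/

set_option autoImplicit false

namespace Pool.Agent.PS

open Finset

theorem scale_lemma (J N : ℕ) {c C t : ℝ} (hc : 0 ≤ c) (hC : 0 ≤ C) (ht : 0 < t) :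
    ∃ Kmax : ℕ, ∀ (X : Type) [Fintype X] (q : X → ℝ), IsPr q → ∀ F : Fin J → List X → ℝ,
      (∀ j (s s' : List X), s.length + s'.length ≤ 2 * Kmax → F j (s ++ s') ≤ F j s + F j s') →
      (∀ j (s : List X), s.length ≤ 2 * Kmax → -c * s.length ≤ F j s ∧ F j s ≤ C * s.length) →
      ∃ K, 0 < K ∧ K ≤ Kmax ∧ Even K ∧ ∃ e : Fin J → ℝ,
        Pb (pq q) (fun z : Fin N → Fin K → X => ¬ Good F K t e z) ≤ 1 / 2 := by
  obtain ⟨δ, hδ, hδ1⟩ : ∃ δ : ℝ, 0 < δ ∧ (N : ℝ) ^ 2 * J * (2 * δ / t) ≤ 1 / 4 := by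
    refine ⟨t / (8 * ((N : ℝ) ^ 2 * J + 1)), by positivity, ?_⟩
    have h1 : (0 : ℝ) ≤ (N : ℝ) ^ 2 * J := by positivity
    have h2 : (N : ℝ) ^ 2 * J * (2 * (t / (8 * ((N : ℝ) ^ 2 * J + 1))) / t) =
        (1 / 4) * ((N : ℝ) ^ 2 * J / ((N : ℝ) ^ 2 * J + 1)) := by
      field_simp
      ring
    rw [h2]
    have h3 : (N : ℝ) ^ 2 * J / ((N : ℝ) ^ 2 * J + 1) ≤ 1 :=
      (div_le_one (by positivity)).2 (by linarith)
    linarith
  obtain ⟨m', hm'⟩ := exists_nat_gt ((N : ℝ) * J * (16 * (c + C) ^ 2) / t ^ 2)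
  obtain ⟨R, hR⟩ := exists_nat_gt ((c + C) * J / δ)
  have hR0 : 0 < R := by
    have h1 : (0 : ℝ) ≤ (c + C) * J / δ := by positivity
    exact_mod_cast h1.trans_lt hR
  have hm0 : 0 < m' := by
    have h1 : (0 : ℝ) ≤ (N : ℝ) * J * (16 * (c + C) ^ 2) / t ^ 2 := by positivity
    exact_mod_cast h1.trans_lt hm'
  set m : ℕ := 2 * m' with hm
  have hmpos : 0 < m := by omega
  have hm1 : (N : ℝ) * J * (4 * (c + C) ^ 2 / (m * t ^ 2)) ≤ 1 / 4 := by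
    have h1 : (m : ℝ) = 2 * m' := by rw [hm]; push_cast; ring
    have h2 : (0 : ℝ) < m' := by exact_mod_cast hm0
    rw [div_lt_iff₀ (by positivity)] at hm'
    rw [h1, mul_div_assoc', div_le_iff₀ (by positivity)]
    nlinarith
  refine ⟨m * (2 * m) ^ R, fun X _ q hq F hs hb => ?_⟩
  have hL : (2 * m) ^ R ≤ 2 * (m * (2 * m) ^ R) := by
    have : 1 ≤ 2 * m := by omega
    calc (2 * m) ^ R = 1 * (2 * m) ^ R := (one_mul _).symm
      _ ≤ (2 * m) * (2 * m) ^ R := Nat.mul_le_mul_right _ this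
      _ = 2 * (m * (2 * m) ^ R) := by ring
  have hδR : (c + C) * J ≤ R * δ := by
    rw [div_lt_iff₀ hδ] at hR
    exact hR.le
  obtain ⟨i, hi, hdrop⟩ := exists_scale hq hmpos hR0 hL hδR hs hb
  have hk : 0 < (2 * m) ^ i := by positivity
  have hKle : m * (2 * m) ^ i ≤ m * (2 * m) ^ R :=
    Nat.mul_le_mul_left _ (Nat.pow_le_pow_right (by omega) hi.le)
  refine ⟨m * (2 * m) ^ i, by positivity, hKle, ⟨m' * (2 * m) ^ i, by rw [hm]; ring⟩,
    fun j => av q (F j) ((2 * m) ^ i), ?_⟩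
  refine (good_prob hq hc hC ht hδ.le hmpos hk (fun j s s' h => hs j s s' (by omega))
    (fun j s h => hb j s (by omega)) hdrop).trans ?_
  linarith

end Pool.Agent.PS
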