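import Pool.Agent.LibPS62.S1

/-!
# [PO57 S3] Blocks

`Ev_blocks`: the equivalence `(Fin m → Fin k → X) ≃ (Fin (m * k) → X)` (uncurry and
`finProdFinEquiv`), `List.ofFn_mul`. `Ev_append`: the case `m = 2`, or directly with `Fin.append`.
`Ev_curry`: `Equiv.curry`.
-/

set_option autoImplicit false

namespace Pool.Agent.PS

open Finset

variable {X : Type} [Fintype X] (q : X → ℝ)

/-- the equivalence of the blocks -/
private def S3_e (X : Type) (m k : ℕ) : (Fin m → Fin k → X) ≃ (Fin (m * k) → X) :=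
  (Equiv.curry (Fin m) (Fin k) X).symm.trans (Equiv.arrowCongr finProdFinEquiv (Equiv.refl X))

omit [Fintype X] in
private theorem S3_e_apply (m k : ℕ) (y : Fin m → Fin k → X) (i : Fin m) (j : Fin k) :
    S3_e X m k y (finProdFinEquiv (i, j)) = y i j := by
  simp [S3_e, Equiv.arrowCongr]

theorem Ev_blocks (m k : ℕ) (f : List X → ℝ) :
    Ev q (fun z : Fin (m * k) → X => f (List.ofFn z)) =
      Ev (pq q) (fun y : Fin m → Fin k → X => f (List.ofFn fun i => List.ofFn (y i)).flatten) := by
  unfold Ev E1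
  symm
  refine Fintype.sum_equiv (S3_e X m k) _ _ fun y => ?_
  have h1 : pq (pq q) y = pq q (S3_e X m k y) := by
    unfold pq
    rw [← Fintype.prod_prod_type' (fun i j => q (y i j))]
    refine Fintype.prod_equiv finProdFinEquiv _ _ fun p => ?_
    rw [← S3_e_apply m k y p.1 p.2]
  have h2 : List.ofFn (S3_e X m k y) = (List.ofFn fun i => List.ofFn (y i)).flatten := by
    rw [List.ofFn_mul]
    congr 2
    funext i
    congr 1
    funext j
    rw [← S3_e_apply m k y i j]
    refine congrArg (S3_e X m k y) (Fin.ext ?_)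
    simp only [finProdFinEquiv, Equiv.coe_fn_mk]
    ring
  simp only [h1, h2]

theorem Ev_append (k : ℕ) (f : List X → ℝ) :
    Ev q (fun z : Fin (2 * k) → X => f (List.ofFn z)) =
      E1 (pq q) (fun x : Fin k → X => E1 (pq q) fun y : Fin k → X =>
        f (List.ofFn x ++ List.ofFn y)) := by
  rw [Ev_blocks]
  unfold Ev E1
  rw [Fintype.sum_equiv (finTwoArrowEquiv (Fin k → X)) _
    (fun p : (Fin k → X) × (Fin k → X) => pq q p.1 * (pq q p.2 *
      f (List.ofFn p.1 ++ List.ofFn p.2)))]
  · rw [Fintype.sum_prod_type]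
    refine Finset.sum_congr rfl fun x _ => ?_
    rw [Finset.mul_sum]
  · intro y
    have h1 : pq (pq q) y = pq q (y 0) * pq q (y 1) := by
      unfold pq
      rw [Fin.prod_univ_two]
    rw [h1]
    simp [finTwoArrowEquiv, List.ofFn_succ, mul_assoc]

theorem Pb_curry {ι κ : Type} [Fintype ι] [Fintype κ] [DecidableEq ι] [DecidableEq κ]
    (E : (ι → κ → X) → Prop) :
    Pb (pq q) E = Pb q (fun z : ι × κ → X => E fun i k => z (i, k)) := by
  unfold Pb Ev E1
  refine Fintype.sum_equiv (Equiv.curry ι κ X).symm _ _ fun y => ?_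
  have h1 : pq (pq q) y = pq q ((Equiv.curry ι κ X).symm y) := by
    unfold pq
    rw [← Fintype.prod_prod_type' (fun i j => q (y i j))]
    rfl
  rw [h1]
  rfl

end Pool.Agent.PS
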