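import Pool.Agent.LibPS62.S1

/-!
# [PO57 C1] The measure of sets of words

`mW p S n` is a sum over `Fin n → A`. `mW_split`: `Fin.append` (`Fin.appendEquiv`,
`List.ofFn_fin_append`), `mu` is multiplicative, the sum of the products is the product of the sums.
`mW_take`: the sum over the last letter is `1`. `mW_or`: union bound.
`mW_Wd_succ`: a word `w` of length `n + 1` with `w.take n` in `W = {w | Wd T m0 w}` is in `W`, or it
has a factor `u ∈ T` with `|u| > m0` which is not a factor of `w.take n`, so `u` is a suffix: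
`u = w.drop (n + 1 - l)`, `l = |u|`, and `w.take (n + 1 - l)` is in `W` (a prefix of `w.take n`).
So `{w | w.take n ∈ W} ⊆ W ∪ ⋃_l {w | w.take (n+1-l) ∈ W, w.drop (n+1-l) ∈ T}`; `mW_split`.
-/

set_option autoImplicit false

namespace Pool.Agent.PS

open Finset

variable {A : Type} [Fintype A] {p : A → ℝ}

theorem mu_append (p : A → ℝ) (u v : List A) : mu p (u ++ v) = mu p u * mu p v := by
  unfold mu
  rw [List.map_append, List.prod_append]

theorem mu_nonneg (hp : ∀ a, 0 ≤ p a) (w : List A) : 0 ≤ mu p w := by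
  unfold mu
  apply List.prod_nonneg
  intro x hx
  obtain ⟨a, _, rfl⟩ := List.mem_map.1 hx
  exact hp a

theorem mu_pos (hp : ∀ a, 0 < p a) (w : List A) : 0 < mu p w := by
  unfold mu
  apply List.prod_pos
  intro x hx
  obtain ⟨a, _, rfl⟩ := List.mem_map.1 hx
  exact hp a

theorem mW_nonneg (hp : ∀ a, 0 ≤ p a) (S : Set (List A)) (n : ℕ) : 0 ≤ mW p S n := by
  unfold mW
  apply Finset.sum_nonneg
  intro x _
  split_ifs
  · exact mu_nonneg hp _
  · exact le_rfl

theorem mW_mono (hp : ∀ a, 0 ≤ p a) {S S' : Set (List A)} {n : ℕ}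
    (h : ∀ w ∈ S, w.length = n → w ∈ S') : mW p S n ≤ mW p S' n := by
  unfold mW
  apply Finset.sum_le_sum
  intro x _
  by_cases hx : List.ofFn x ∈ S
  · rw [if_pos hx, if_pos (h _ hx (List.length_ofFn))]
  · rw [if_neg hx]
    split_ifs
    · exact mu_nonneg hp _
    · exact le_rfl

theorem mW_exists (hp : ∀ a, 0 ≤ p a) {I : Type} (s : Finset I) (S : I → Set (List A)) (n : ℕ) :
    mW p {w | ∃ i ∈ s, w ∈ S i} n ≤ ∑ i ∈ s, mW p (S i) n := by
  classical
  unfold mW
  rw [Finset.sum_comm]
  apply Finset.sum_le_sum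
  intro x _
  have hnn : ∀ i ∈ s, (0 : ℝ) ≤ if List.ofFn x ∈ S i then mu p (List.ofFn x) else 0 := by
    intro i _
    split_ifs
    · exact mu_nonneg hp _
    · exact le_rfl
  by_cases hx : ∃ i ∈ s, List.ofFn x ∈ S i
  · obtain ⟨i, hi, hxi⟩ := hx
    have h1 := Finset.single_le_sum hnn hi
    rw [if_pos hxi] at h1
    rw [if_pos (show List.ofFn x ∈ {w | ∃ i ∈ s, w ∈ S i} from ⟨i, hi, hxi⟩)]
    exact h1
  · rw [if_neg (show List.ofFn x ∉ {w | ∃ i ∈ s, w ∈ S i} from hx)]
    exact Finset.sum_nonneg hnn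

/-- the sum over the words of length `m + n` -/
theorem mW_append (S : Set (List A)) (m n : ℕ) :
    mW p S (m + n) = by
      classical
      exact ∑ y : Fin m → A, ∑ z : Fin n → A,
        if List.ofFn y ++ List.ofFn z ∈ S then mu p (List.ofFn y) * mu p (List.ofFn z) else 0 := by
  classical
  unfold mW
  rw [← Equiv.sum_comp (Fin.appendEquiv m n), Fintype.sum_prod_type]
  refine Finset.sum_congr rfl fun y _ => Finset.sum_congr rfl fun z _ => ?_
  have h1 : List.ofFn (Fin.appendEquiv m n (y, z)) = List.ofFn y ++ List.ofFn z :=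
    List.ofFn_fin_append y z
  rw [h1, mu_append]

theorem mW_split (hp : ∀ a, 0 ≤ p a) {S S1 S2 : Set (List A)} {m n : ℕ}
    (h : ∀ w ∈ S, w.length = m + n → w.take m ∈ S1 ∧ w.drop m ∈ S2) :
    mW p S (m + n) ≤ mW p S1 m * mW p S2 n := by
  classical
  rw [mW_append]
  unfold mW
  rw [Finset.sum_mul_sum]
  apply Finset.sum_le_sum
  intro y _
  apply Finset.sum_le_sum
  intro z _
  have hy := mu_nonneg hp (List.ofFn y)
  have hz := mu_nonneg hp (List.ofFn z)
  by_cases hw : List.ofFn y ++ List.ofFn z ∈ S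
  · have h1 := h _ hw (by rw [List.length_append, List.length_ofFn, List.length_ofFn])
    rw [List.take_left' List.length_ofFn, List.drop_left' List.length_ofFn] at h1
    rw [if_pos hw, if_pos h1.1, if_pos h1.2]
  · rw [if_neg hw]
    split_ifs
    · positivity
    · simp
    · simp
    · simp

theorem mW_take (hp1 : ∑ a, p a = 1) (S : Set (List A)) (n : ℕ) :
    mW p {w | w.take n ∈ S} (n + 1) = mW p S n := by
  classical
  rw [mW_append]
  unfold mW
  refine Finset.sum_congr rfl fun y _ => ?_
  have h1 : ∀ z : Fin 1 → A, (List.ofFn y ++ List.ofFn z ∈ {w | w.take n ∈ S}) ↔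
      List.ofFn y ∈ S := by
    intro z
    change (List.ofFn y ++ List.ofFn z).take n ∈ S ↔ _
    rw [List.take_left' List.length_ofFn]
  have h2 : ∑ z : Fin 1 → A, mu p (List.ofFn z) = 1 := by
    rw [← hp1, ← Equiv.sum_comp (Equiv.funUnique (Fin 1) A).symm]
    refine Finset.sum_congr rfl fun a _ => ?_
    simp [mu]
  by_cases hy : List.ofFn y ∈ S
  · rw [if_pos hy]
    rw [Finset.sum_congr rfl fun z _ => if_pos ((h1 z).2 hy), ← Finset.mul_sum, h2, mul_one]
  · rw [if_neg hy]
    exact Finset.sum_eq_zero fun z _ => if_neg fun h3 => hy ((h1 z).1 h3)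

theorem mW_or (hp : ∀ a, 0 ≤ p a) (S S' : Set (List A)) (n : ℕ) :
    mW p (S ∪ S') n ≤ mW p S n + mW p S' n := by
  classical
  unfold mW
  rw [← Finset.sum_add_distrib]
  apply Finset.sum_le_sum
  intro x _
  have hx := mu_nonneg hp (List.ofFn x)
  by_cases h1 : List.ofFn x ∈ S
  · rw [if_pos h1, if_pos (Set.mem_union_left S' h1)]
    split_ifs
    · linarith
    · linarith
  · by_cases h2 : List.ofFn x ∈ S'
    · rw [if_neg h1, if_pos h2, if_pos (Set.mem_union_right S h2)]
      linarith
    · rw [if_neg h1, if_neg h2, if_neg (fun h3 => h3.elim h1 h2)]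
      linarith

omit [Fintype A] in
theorem Wd_of_infix {T : Set (List A)} {m0 : ℕ} {u w : List A} (h : u <:+: w) (hw : Wd T m0 w) :
    Wd T m0 u := fun v hv hl => hw v (hv.trans h) hl

theorem mW_Wd_succ (hp : ∀ a, 0 ≤ p a) (hp1 : ∑ a, p a = 1) (T : Set (List A)) (m0 n : ℕ) :
    mW p {w | Wd T m0 w} n ≤ mW p {w | Wd T m0 w} (n + 1) +
      ∑ l ∈ Ioc m0 (n + 1), mW p {w | Wd T m0 w} (n + 1 - l) * mW p T l := by
  rw [← mW_take hp1]
  set S : ℕ → Set (List A) := fun l =>
    {w | w.take (n + 1 - l) ∈ {w | Wd T m0 w} ∧ w.drop (n + 1 - l) ∈ T} with hS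
  have h1 : mW p {w | w.take n ∈ {w | Wd T m0 w}} (n + 1) ≤
      mW p ({w | Wd T m0 w} ∪ {w | ∃ l ∈ Ioc m0 (n + 1), w ∈ S l}) (n + 1) := by
    apply mW_mono hp
    intro w hw hlen
    have hw' : Wd T m0 (w.take n) := hw
    by_cases hW : Wd T m0 w
    · exact Or.inl hW
    · right
      unfold Wd at hW
      push Not at hW
      obtain ⟨u, ⟨s, t, hst⟩, hum, huT⟩ := hW
      rcases List.eq_nil_or_concat t with rfl | ⟨t', a, rfl⟩
      · rw [List.append_nil] at hst
        have hlen2 : s.length + u.length = n + 1 := by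
          rw [← List.length_append, hst, hlen]
        have hs : s.length = n + 1 - u.length := by omega
        refine ⟨u.length, Finset.mem_Ioc.2 ⟨hum, by omega⟩, ?_, ?_⟩
        · change Wd T m0 (w.take (n + 1 - u.length))
          apply Wd_of_infix _ hw'
          have h2 : n + 1 - u.length ≤ n := by omega
          exact (List.take_prefix_take_left h2).isInfix
        · change w.drop (n + 1 - u.length) ∈ T
          rw [← hs, ← hst, List.drop_left' rfl]
          exact huT
      · exfalso
        have hlen2 : (s ++ u ++ t').length = n := by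
          have h3 := congrArg List.length hst
          rw [hlen] at h3
          simp only [List.concat_eq_append, List.length_append, List.length_cons,
            List.length_nil] at h3 ⊢
          omega
        have h4 : w.take n = s ++ u ++ t' := by
          rw [← hst, List.concat_eq_append, ← List.append_assoc, List.take_left' hlen2]
        exact hw' u (h4 ▸ ⟨s, t', rfl⟩) hum huT
  refine h1.trans ((mW_or hp _ _ _).trans ?_)
  refine add_le_add le_rfl ((mW_exists hp _ S _).trans ?_)
  refine Finset.sum_le_sum fun l hl => ?_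
  rw [Finset.mem_Ioc] at hl
  have h5 : n + 1 = (n + 1 - l) + l := by omega
  have h6 : mW p (S l) (n + 1 - l + l) ≤ mW p {w | Wd T m0 w} (n + 1 - l) * mW p T l :=
    mW_split hp fun w hw _ => hw
  rwa [← h5] at h6

end Pool.Agent.PS
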