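import Pool.Agent.LibPS62.C1

/-!
# [PO57 C2] Typical words

`W = {w | Wd T m0 w}`, `M n = mW p W n`.
* `exists_m0`: the tail of a summable series of nonnegative terms; `b ^ (l - 1) ≤ b ^ l`.
* `Wd_ratio`: strong induction on `n`: `M (n+1) ≥ M n - ∑_l M (n+1-l) * mW p T l` (`mW_Wd_succ`) and
  `M (n + 1 - l) ≤ b ^ (l - 1) * M n` for `1 ≤ l ≤ n + 1` by the induction hypothesis
  (`m0 < l` so `1 ≤ l`), so `M (n+1) ≥ M n * (1 - (1 - b⁻¹)) = b⁻¹ * M n`.
* `Wd_pos`: `M 0 = 1` (the empty word is in `W`).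
-/

set_option autoImplicit false

namespace Pool.Agent.PS

open Finset

variable {A : Type} [Fintype A] {p : A → ℝ}

theorem exists_m0 {T : Set (List A)} (hp : ∀ a, 0 ≤ p a) {b : ℝ} (hb : 1 < b)
    (hs : Summable fun l : ℕ => mW p T l * b ^ l) :
    ∃ m0 : ℕ, ∀ n, ∑ l ∈ Ioc m0 n, mW p T l * b ^ (l - 1) ≤ 1 - b⁻¹ := by
  have hb0 : 0 < b := by linarith
  have hε : 0 < 1 - b⁻¹ := by
    have := inv_lt_one_of_one_lt₀ hb
    linarith
  have hnn : ∀ l, 0 ≤ mW p T l * b ^ l := fun l => mul_nonneg (mW_nonneg hp T l) (by positivity)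
  have ht := hs.tendsto_sum_tsum_nat
  have hev := ht.eventually (lt_mem_nhds (show (∑' l, mW p T l * b ^ l) - (1 - b⁻¹) <
    ∑' l, mW p T l * b ^ l by linarith))
  obtain ⟨N, hN⟩ := Filter.eventually_atTop.1 hev
  refine ⟨N, fun n => ?_⟩
  have h1 : ∑ l ∈ Ioc N n, mW p T l * b ^ (l - 1) ≤ ∑ l ∈ Ioc N n, mW p T l * b ^ l := by
    apply Finset.sum_le_sum
    intro l _
    exact mul_le_mul_of_nonneg_left (pow_le_pow_right₀ hb.le (Nat.sub_le l 1)) (mW_nonneg hp T l)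
  have hd : Disjoint (Finset.range (N + 1)) (Ioc N n) := by
    rw [Finset.disjoint_left]
    intro l hl hl'
    rw [Finset.mem_range] at hl
    rw [Finset.mem_Ioc] at hl'
    omega
  have h2 : ∑ l ∈ Finset.range (N + 1) ∪ Ioc N n, mW p T l * b ^ l ≤
      ∑' l, mW p T l * b ^ l := hs.sum_le_tsum _ fun l _ => hnn l
  rw [Finset.sum_union hd] at h2
  have h3 := hN (N + 1) (Nat.le_succ N)
  linarith

theorem Wd_ratio (hp : ∀ a, 0 ≤ p a) (hp1 : ∑ a, p a = 1) {T : Set (List A)} {m0 : ℕ} {b : ℝ}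
    (hb : 1 < b) (hT : ∀ n, ∑ l ∈ Ioc m0 n, mW p T l * b ^ (l - 1) ≤ 1 - b⁻¹) (n : ℕ) :
    mW p {w | Wd T m0 w} n ≤ b * mW p {w | Wd T m0 w} (n + 1) := by
  have hb0 : 0 < b := by linarith
  induction n using Nat.strong_induction_on with
  | _ n ih =>
    set M : ℕ → ℝ := fun n => mW p {w | Wd T m0 w} n with hM
    have hM0 : ∀ n, 0 ≤ M n := fun n => mW_nonneg hp _ n
    have hchain : ∀ j, j ≤ n → M (n - j) ≤ b ^ j * M n := by
      intro j
      induction j with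
      | zero => intro _; simp
      | succ j ihj =>
        intro hj
        have h1 := ih (n - (j + 1)) (by omega)
        have h2 : n - (j + 1) + 1 = n - j := by omega
        rw [h2] at h1
        calc M (n - (j + 1)) ≤ b * M (n - j) := h1
          _ ≤ b * (b ^ j * M n) := mul_le_mul_of_nonneg_left (ihj (by omega)) hb0.le
          _ = b ^ (j + 1) * M n := by rw [pow_succ]; ring
    have h1 : M n ≤ M (n + 1) + ∑ l ∈ Ioc m0 (n + 1), M (n + 1 - l) * mW p T l :=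
      mW_Wd_succ hp hp1 T m0 n
    have h2 : ∑ l ∈ Ioc m0 (n + 1), M (n + 1 - l) * mW p T l ≤
        ∑ l ∈ Ioc m0 (n + 1), M n * (mW p T l * b ^ (l - 1)) := by
      apply Finset.sum_le_sum
      intro l hl
      rw [Finset.mem_Ioc] at hl
      have h3 : n + 1 - l = n - (l - 1) := by omega
      rw [h3]
      have h4 := hchain (l - 1) (by omega)
      calc M (n - (l - 1)) * mW p T l ≤ (b ^ (l - 1) * M n) * mW p T l :=
            mul_le_mul_of_nonneg_right h4 (mW_nonneg hp T l)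
        _ = M n * (mW p T l * b ^ (l - 1)) := by ring
    rw [← Finset.mul_sum] at h2
    have h5 := mul_le_mul_of_nonneg_left (hT (n + 1)) (hM0 n)
    have h6 : M n * b⁻¹ ≤ M (n + 1) := by linarith
    have h7 : b * (M n * b⁻¹) ≤ b * M (n + 1) := mul_le_mul_of_nonneg_left h6 hb0.le
    have h8 : b * (M n * b⁻¹) = M n := by
      field_simp
    rw [h8] at h7
    exact h7

theorem Wd_ratio_pow (hp : ∀ a, 0 ≤ p a) (hp1 : ∑ a, p a = 1) {T : Set (List A)} {m0 : ℕ} {b : ℝ}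
    (hb : 1 < b) (hT : ∀ n, ∑ l ∈ Ioc m0 n, mW p T l * b ^ (l - 1) ≤ 1 - b⁻¹) (n k : ℕ) :
    mW p {w | Wd T m0 w} n ≤ b ^ k * mW p {w | Wd T m0 w} (n + k) := by
  induction k with
  | zero => simp
  | succ k ih =>
    have h1 := Wd_ratio hp hp1 hb hT (n + k)
    have hb0 : 0 ≤ b ^ k := pow_nonneg (by linarith) k
    calc mW p {w | Wd T m0 w} n ≤ b ^ k * mW p {w | Wd T m0 w} (n + k) := ih
      _ ≤ b ^ k * (b * mW p {w | Wd T m0 w} (n + k + 1)) := mul_le_mul_of_nonneg_left h1 hb0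
      _ = b ^ (k + 1) * mW p {w | Wd T m0 w} (n + (k + 1)) := by
          rw [pow_succ, Nat.add_assoc]; ring

theorem Wd_pos (hp : ∀ a, 0 < p a) (hp1 : ∑ a, p a = 1) {T : Set (List A)} {m0 : ℕ} {b : ℝ}
    (hb : 1 < b) (hT : ∀ n, ∑ l ∈ Ioc m0 n, mW p T l * b ^ (l - 1) ≤ 1 - b⁻¹) (n : ℕ) :
    0 < mW p {w | Wd T m0 w} n := by
  classical
  have h0 : mW p {w | Wd T m0 w} 0 = 1 := by
    have hnil : ([] : List A) ∈ {w | Wd T m0 w} := by
      intro u hu hl
      rw [List.infix_nil] at hu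
      rw [hu] at hl
      simp at hl
    unfold mW
    rw [Fintype.sum_unique, List.ofFn_zero, if_pos hnil]
    simp [mu]
  have h1 := Wd_ratio_pow (fun a => (hp a).le) hp1 hb hT 0 n
  rw [h0, Nat.zero_add] at h1
  have hbn : 0 < b ^ n := pow_pos (by linarith) n
  by_contra hcon
  push Not at hcon
  have h2 : b ^ n * mW p {w | Wd T m0 w} n ≤ 0 := mul_nonpos_of_nonneg_of_nonpos hbn.le hcon
  linarith

end Pool.Agent.PS
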