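import Pool.Agent.LibPS62.C2

/-!
# [PO57 C2b] Random pieces

* `prefix_suffix`: for `|pr| + |su| ≤ n` the words of `W` of length `n` with the prefix `pr` and the
  suffix `su` are `pr ++ y ++ su` with `y` in `W` of length `n - |pr| - |su|`, so their measure is at
  most `mu p pr * mu p su * M (n - |pr| - |su|)` (`mW_split` twice with `{pr}`, `{su}`, or a direct
  injection) and `M (n - |pr| - |su|) ≤ b ^ (|pr| + |su|) * M n` by `Wd_ratio_pow`.
* `Wd_pieces`: choose `ε` = the parity class with the larger mass; `X = {x : Fin n0 → A // Wd T m0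
  (ofFn x) ∧ ((ofFn x).map wt).sum % 2 = ε}`, `q x = mu p (ofFn x) / S`, `S` = the sum,
  `2 * S ≥ M n0 > 0` (`Wd_pos`), `ω x = List.ofFn x.1`; `nice` from `prefix_suffix`.
-/

set_option autoImplicit false

namespace Pool.Agent.PS

open Finset

variable {A : Type} [Fintype A] {p : A → ℝ}

private theorem C2b_single (p : A → ℝ) (u : List A) : mW p {u} u.length = mu p u := by
  classical
  unfold mW
  rw [Finset.sum_eq_single u.get]
  · rw [List.ofFn_get, if_pos (Set.mem_singleton u)]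
  · intro x _ hx
    rw [if_neg]
    intro h
    apply hx
    apply List.ofFn_injective
    rw [List.ofFn_get]
    exact h
  · intro h
    exact absurd (Finset.mem_univ _) h

omit [Fintype A] in
private theorem C2b_Wd {T : Set (List A)} {m0 : ℕ} {v w : List A} (h : v <:+: w)
    (hw : Wd T m0 w) : Wd T m0 v := fun u hu hl => hw u (hu.trans h) hl

theorem prefix_suffix (hp : ∀ a, 0 ≤ p a) (hp1 : ∑ a, p a = 1) {T : Set (List A)} {m0 : ℕ} {b : ℝ}
    (hb : 1 < b) (hT : ∀ n, ∑ l ∈ Ioc m0 n, mW p T l * b ^ (l - 1) ≤ 1 - b⁻¹) {n : ℕ}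
    (pr su : List A) (h : pr.length + su.length ≤ n) :
    mW p {w | Wd T m0 w ∧ pr <+: w ∧ su <:+ w} n ≤
      mu p pr * mu p su * b ^ (pr.length + su.length) * mW p {w | Wd T m0 w} n := by
  obtain ⟨m, rfl⟩ : ∃ m, n = pr.length + (m + su.length) :=
    ⟨n - (pr.length + su.length), by omega⟩
  have s1 : mW p {w | Wd T m0 w ∧ pr <+: w ∧ su <:+ w} (pr.length + (m + su.length)) ≤
      mW p {pr} pr.length * mW p {w | Wd T m0 w ∧ su <:+ w} (m + su.length) := by
    refine mW_split hp ?_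
    rintro w ⟨hw, hpre, hsuf⟩ hlen
    refine ⟨?_, ?_, ?_⟩
    · exact (List.prefix_iff_eq_take.mp hpre).symm
    · exact C2b_Wd (List.drop_suffix _ _).isInfix hw
    · refine List.suffix_of_suffix_length_le hsuf (List.drop_suffix _ _) ?_
      rw [List.length_drop]
      omega
  have s2 : mW p {w | Wd T m0 w ∧ su <:+ w} (m + su.length) ≤
      mW p {w | Wd T m0 w} m * mW p {su} su.length := by
    refine mW_split hp ?_
    rintro w ⟨hw, hsuf⟩ hlen
    refine ⟨?_, ?_⟩
    · exact C2b_Wd (List.take_prefix _ _).isInfix hw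
    · have h1 := List.suffix_iff_eq_drop.mp hsuf
      have h2 : w.length - su.length = m := by omega
      rw [h2] at h1
      exact h1.symm
  rw [C2b_single] at s1 s2
  have s3 : mW p {w | Wd T m0 w} m ≤ b ^ (pr.length + su.length) *
      mW p {w | Wd T m0 w} (pr.length + (m + su.length)) := by
    have h1 := Wd_ratio_pow hp hp1 hb hT m (pr.length + su.length)
    have h2 : m + (pr.length + su.length) = pr.length + (m + su.length) := by omega
    rwa [h2] at h1
  have hpr := mu_nonneg hp pr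
  have hsu := mu_nonneg hp su
  calc mW p {w | Wd T m0 w ∧ pr <+: w ∧ su <:+ w} (pr.length + (m + su.length))
      ≤ mu p pr * mW p {w | Wd T m0 w ∧ su <:+ w} (m + su.length) := s1
    _ ≤ mu p pr * (mW p {w | Wd T m0 w} m * mu p su) := mul_le_mul_of_nonneg_left s2 hpr
    _ ≤ mu p pr * ((b ^ (pr.length + su.length) *
        mW p {w | Wd T m0 w} (pr.length + (m + su.length))) * mu p su) :=
        mul_le_mul_of_nonneg_left (mul_le_mul_of_nonneg_right s3 hsu) hpr
    _ = _ := by ring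

/-- random words `ω x` of length `n0` without factors of length greater than `m0` in `T`; the
probability of a prefix `pr` and a suffix `su` is at most `2 * mu pr * mu su * b ^ (|pr| + |su|)` -/
structure IsPc {X : Type} [Fintype X] (p : A → ℝ) (T : Set (List A)) (m0 : ℕ) (b : ℝ) (n0 : ℕ)
    (q : X → ℝ) (ω : X → List A) : Prop where
  pr : IsPr q
  len : ∀ x, (ω x).length = n0
  good : ∀ x, Wd T m0 (ω x)
  nice : ∀ pr su : List A, pr.length + su.length ≤ n0 →
    P1 q (fun x => pr <+: ω x ∧ su <:+ ω x) ≤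
      2 * (mu p pr * mu p su * b ^ (pr.length + su.length))

private theorem C2b_sum {n0 : ℕ} (P : (Fin n0 → A) → Prop) [DecidablePred P]
    [Fintype {x : Fin n0 → A // P x}] (f : (Fin n0 → A) → ℝ) :
    ∑ x : {x : Fin n0 → A // P x}, f x.1 = ∑ x, if P x then f x else 0 := by
  rw [← Finset.sum_filter]
  exact (Finset.sum_subtype _ (by simp) f).symm

theorem Wd_pieces (hp : ∀ a, 0 < p a) (hp1 : ∑ a, p a = 1) {T : Set (List A)} {m0 : ℕ} {b : ℝ}
    (hb : 1 < b) (hT : ∀ n, ∑ l ∈ Ioc m0 n, mW p T l * b ^ (l - 1) ≤ 1 - b⁻¹) (wt : A → ℕ)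
    (n0 : ℕ) : ∃ (X : Type) (_ : Fintype X) (q : X → ℝ) (ω : X → List A),
      IsPc p T m0 b n0 q ω ∧ ∃ ε, ∀ x, ((ω x).map wt).sum % 2 = ε := by
  classical
  have hp0 : ∀ a, 0 ≤ p a := fun a => (hp a).le
  -- the parity class
  obtain ⟨ε, hε⟩ : ∃ ε, mW p {w | Wd T m0 w} n0 ≤
      2 * mW p {w | Wd T m0 w ∧ (w.map wt).sum % 2 = ε} n0 := by
    have h1 : mW p {w | Wd T m0 w} n0 ≤ ∑ i ∈ Finset.range 2,
        mW p {w | Wd T m0 w ∧ (w.map wt).sum % 2 = i} n0 := by
      refine le_trans (mW_mono hp0 ?_) (mW_exists hp0 (Finset.range 2)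
        (fun i => {w | Wd T m0 w ∧ (w.map wt).sum % 2 = i}) n0)
      intro w hw _
      exact ⟨(w.map wt).sum % 2, Finset.mem_range.mpr (Nat.mod_lt _ two_pos), hw, rfl⟩
    rw [Finset.sum_range_succ, Finset.sum_range_one] at h1
    rcases le_total (mW p {w | Wd T m0 w ∧ (w.map wt).sum % 2 = 0} n0)
      (mW p {w | Wd T m0 w ∧ (w.map wt).sum % 2 = 1} n0) with h | h
    · exact ⟨1, by linarith⟩
    · exact ⟨0, by linarith⟩
  set S : ℝ := mW p {w | Wd T m0 w ∧ (w.map wt).sum % 2 = ε} n0 with hS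
  have hM : 0 < mW p {w | Wd T m0 w} n0 := Wd_pos hp hp1 hb hT n0
  have hSpos : 0 < S := by linarith
  have hSsum : ∑ x : {x : Fin n0 → A // Wd T m0 (List.ofFn x) ∧
      ((List.ofFn x).map wt).sum % 2 = ε}, mu p (List.ofFn x.1) = S := by
    rw [C2b_sum (fun x : Fin n0 → A => Wd T m0 (List.ofFn x) ∧
      ((List.ofFn x).map wt).sum % 2 = ε) fun x => mu p (List.ofFn x), hS]
    unfold mW
    refine Finset.sum_congr rfl fun x _ => ?_
    by_cases hx : Wd T m0 (List.ofFn x) ∧ ((List.ofFn x).map wt).sum % 2 = ε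
    · rw [if_pos hx, if_pos (show List.ofFn x ∈ {w | Wd T m0 w ∧ (w.map wt).sum % 2 = ε} from hx)]
    · rw [if_neg hx, if_neg (show List.ofFn x ∉ {w | Wd T m0 w ∧ (w.map wt).sum % 2 = ε} from hx)]
  refine ⟨{x : Fin n0 → A // Wd T m0 (List.ofFn x) ∧ ((List.ofFn x).map wt).sum % 2 = ε},
    inferInstance, fun x => mu p (List.ofFn x.1) / S, fun x => List.ofFn x.1, ?_, ε,
    fun x => x.2.2⟩
  refine ⟨⟨fun x => div_nonneg (mu_nonneg hp0 _) hSpos.le, ?_⟩, fun x => List.length_ofFn,
    fun x => x.2.1, ?_⟩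
  · rw [← Finset.sum_div, hSsum, div_self hSpos.ne']
  · intro pr su hlen
    have h1 := prefix_suffix hp0 hp1 hb hT pr su hlen
    have h2 : ∑ x : {x : Fin n0 → A // Wd T m0 (List.ofFn x) ∧
        ((List.ofFn x).map wt).sum % 2 = ε},
        (if pr <+: List.ofFn x.1 ∧ su <:+ List.ofFn x.1 then mu p (List.ofFn x.1) else 0) ≤
        mW p {w | Wd T m0 w ∧ pr <+: w ∧ su <:+ w} n0 := by
      rw [C2b_sum (fun x : Fin n0 → A => Wd T m0 (List.ofFn x) ∧
        ((List.ofFn x).map wt).sum % 2 = ε) fun x =>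
          if pr <+: List.ofFn x ∧ su <:+ List.ofFn x then mu p (List.ofFn x) else 0]
      unfold mW
      refine Finset.sum_le_sum fun x _ => ?_
      by_cases hx : List.ofFn x ∈ {w | Wd T m0 w ∧ pr <+: w ∧ su <:+ w}
      · rw [if_pos hx]
        split_ifs
        · exact le_rfl
        · exact mu_nonneg hp0 _
        · exact mu_nonneg hp0 _
      · rw [if_neg hx]
        by_cases h3 : Wd T m0 (List.ofFn x) ∧ ((List.ofFn x).map wt).sum % 2 = ε
        · rw [if_pos h3, if_neg]
          exact fun h4 => hx ⟨h3.1, h4.1, h4.2⟩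
        · rw [if_neg h3]
    have h3 : P1 (fun x : {x : Fin n0 → A // Wd T m0 (List.ofFn x) ∧
        ((List.ofFn x).map wt).sum % 2 = ε} => mu p (List.ofFn x.1) / S)
        (fun x => pr <+: List.ofFn x.1 ∧ su <:+ List.ofFn x.1) =
        (∑ x : {x : Fin n0 → A // Wd T m0 (List.ofFn x) ∧
        ((List.ofFn x).map wt).sum % 2 = ε},
        (if pr <+: List.ofFn x.1 ∧ su <:+ List.ofFn x.1 then mu p (List.ofFn x.1) else 0)) / S := by
      unfold P1 E1
      rw [Finset.sum_div]
      refine Finset.sum_congr rfl fun x _ => ?_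
      beta_reduce
      by_cases h4 : pr <+: List.ofFn x.1 ∧ su <:+ List.ofFn x.1
      · rw [if_pos h4, if_pos h4, mul_one]
      · rw [if_neg h4, if_neg h4, mul_zero, zero_div]
    rw [h3, div_le_iff₀ hSpos]
    have h4 : 0 ≤ mu p pr * mu p su * b ^ (pr.length + su.length) :=
      mul_nonneg (mul_nonneg (mu_nonneg hp0 _) (mu_nonneg hp0 _)) (by positivity)
    calc _ ≤ mW p {w | Wd T m0 w ∧ pr <+: w ∧ su <:+ w} n0 := h2
      _ ≤ mu p pr * mu p su * b ^ (pr.length + su.length) * mW p {w | Wd T m0 w} n0 := h1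
      _ ≤ mu p pr * mu p su * b ^ (pr.length + su.length) * (2 * S) :=
        mul_le_mul_of_nonneg_left hε h4
      _ = _ := by ring

end Pool.Agent.PS
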