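import Pool.Agent.LibPS62.S1

/-!
# [PO57 S2] Resampling, independence, marginals

`Ev_resample`: the map `(z, x) ↦ (Function.update z i x, z i)` is an involution of `(ι → X) × X` and
`pq q (update z i x) * q (z i) = pq q z * q x` (`Finset.mul_prod_erase`). The other statements follow:
resample the coordinate `i`.
-/

set_option autoImplicit false

namespace Pool.Agent.PS

open Finset

variable {ι X : Type} [Fintype ι] [DecidableEq ι] [Fintype X] {q : X → ℝ}

/-- the involution of the resampling -/
private def S2_e (i : ι) : ((ι → X) × X) ≃ ((ι → X) × X) where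
  toFun p := (Function.update p.1 i p.2, p.1 i)
  invFun p := (Function.update p.1 i p.2, p.1 i)
  left_inv p := by simp
  right_inv p := by simp

omit [Fintype X] in
private theorem S2_w (i : ι) (z : ι → X) (x : X) :
    pq q (Function.update z i x) * q (z i) = pq q z * q x := by
  have h1 : pq q (Function.update z i x) = q x * ∏ j ∈ univ.erase i, q (z j) := by
    unfold pq
    rw [← Finset.mul_prod_erase univ _ (mem_univ i), Function.update_self]
    congr 1
    refine Finset.prod_congr rfl fun j hj => ?_
    rw [Function.update_of_ne (Finset.ne_of_mem_erase hj)]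
  have h2 : pq q z = q (z i) * ∏ j ∈ univ.erase i, q (z j) := by
    unfold pq
    rw [← Finset.mul_prod_erase univ _ (mem_univ i)]
  rw [h1, h2]
  ring

theorem Ev_resample (h : IsPr q) (i : ι) (f : (ι → X) → ℝ) :
    Ev q f = Ev q (fun z => E1 q fun x => f (Function.update z i x)) := by
  have e1 : Ev q f = ∑ p : (ι → X) × X, pq q p.1 * q p.2 * f p.1 := by
    rw [Fintype.sum_prod_type, Ev_eq]
    unfold E1
    refine Finset.sum_congr rfl fun z _ => ?_
    have h1 : ∑ x : X, pq q z * q x * f z = (pq q z * f z) * ∑ x : X, q x := by
      rw [Finset.mul_sum]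
      exact Finset.sum_congr rfl fun x _ => by ring
    show pq q z * f z = ∑ x : X, pq q z * q x * f z
    rw [h1, h.sum_eq, mul_one]
  have e2 : Ev q (fun z => E1 q fun x => f (Function.update z i x)) =
      ∑ p : (ι → X) × X, pq q p.1 * q p.2 * f (Function.update p.1 i p.2) := by
    rw [Fintype.sum_prod_type, Ev_eq]
    unfold E1
    refine Finset.sum_congr rfl fun z _ => ?_
    show pq q z * ∑ x : X, q x * f (Function.update z i x) =
      ∑ x : X, pq q z * q x * f (Function.update z i x)
    rw [Finset.mul_sum]
    exact Finset.sum_congr rfl fun x _ => by ring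
  rw [e1, e2, ← Equiv.sum_comp (S2_e i)]
  refine Finset.sum_congr rfl fun p _ => ?_
  show pq q (Function.update p.1 i p.2) * q (p.1 i) * f (Function.update p.1 i p.2) = _
  rw [S2_w]

/-- independence of the coordinate `i` and of a function which does not depend on it -/
theorem Ev_mul_of_indep (h : IsPr q) (i : ι) (f : X → ℝ) (g : (ι → X) → ℝ)
    (hg : ∀ z x, g (Function.update z i x) = g z) :
    Ev q (fun z => f (z i) * g z) = E1 q f * Ev q g := by
  rw [Ev_resample h i]
  have h1 : (fun z : ι → X => E1 q fun x => f (Function.update z i x i) *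
      g (Function.update z i x)) = fun z => E1 q f * g z := by
    funext z
    have h2 : (fun x => f (Function.update z i x i) * g (Function.update z i x)) =
        fun x => g z * f x := by
      funext x
      rw [Function.update_self, hg]
      ring
    rw [h2, E1_mul]
    ring
  rw [h1, Ev_eq, Ev_eq, E1_mul]

theorem Pb_and_of_indep (h : IsPr q) (i : ι) (E : X → Prop) (F : (ι → X) → Prop)
    (hF : ∀ z x, F (Function.update z i x) ↔ F z) :
    Pb q (fun z => E (z i) ∧ F z) = P1 q E * Pb q F := by
  classical
  unfold Pb P1
  rw [← Ev_mul_of_indep h i (fun x => if E x then (1 : ℝ) else 0)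
    (fun z => if F z then (1 : ℝ) else 0) (fun z x => by simp only [hF])]
  congr 1
  funext z
  by_cases h1 : E (z i) <;> by_cases h2 : F z <;> simp [h1, h2]

theorem Ev_one (h : IsPr q) (i : ι) (f : X → ℝ) : Ev q (fun z => f (z i)) = E1 q f := by
  have h1 := Ev_mul_of_indep h i f (fun _ => 1) (fun _ _ => rfl)
  rw [Ev_eq (fun _ => 1), (isPr_pq h).E1_const, mul_one] at h1
  rw [← h1]
  congr 1
  funext z
  rw [mul_one]

theorem Pb_one (h : IsPr q) (i : ι) (E : X → Prop) : Pb q (fun z => E (z i)) = P1 q E := by
  classical
  exact Ev_one h i (fun x => if E x then (1 : ℝ) else 0)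

theorem Ev_two (h : IsPr q) {i j : ι} (hij : i ≠ j) (f : X → X → ℝ) :
    Ev q (fun z => f (z i) (z j)) = E1 q (fun x => E1 q fun y => f x y) := by
  rw [Ev_resample h j]
  have h1 : (fun z : ι → X => E1 q fun y => f (Function.update z j y i)
      (Function.update z j y j)) = fun z => E1 q fun y => f (z i) y := by
    funext z
    congr 1
    funext y
    rw [Function.update_self, Function.update_of_ne hij]
  rw [h1]
  exact Ev_one h i (fun x => E1 q fun y => f x y)

end Pool.Agent.PS
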