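import Pool.Agent.LibPS62.C2b
import Pool.Agent.LibPS62.S2

/-!
# [PO57 C3] Arcs in a circle of blocks (no probability)

`arc_split`: `bs.flatten ≠ []`; replace `s` by `s % length` (`List.rotate_mod`), then
`List.rotate_eq_drop_append_take`; the position `s` lies in a block: induction on `bs`.
`arc_cases`: the deterministic part of the arc estimate. Let `h = b.length - k`. If `h < w.length`
then `w.take h = b.drop k` is a suffix of `b`, `(w.drop h).take rest.length <+: rest`, and
`w.drop (h + rest.length) <+: b.take k`, so it is a prefix of `b`, of length `≤ k`.
-/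

set_option autoImplicit false

namespace Pool.Agent.PS

variable {A : Type}

theorem exists_block (bs : List (List A)) (t : ℕ) (ht : t < bs.flatten.length) :
    ∃ l1 b l2, bs = l1 ++ b :: l2 ∧ ∃ k, k < b.length ∧
      bs.flatten.drop t = b.drop k ++ l2.flatten ∧ bs.flatten.take t = l1.flatten ++ b.take k := by
  induction bs generalizing t with
  | nil => simp at ht
  | cons c bs ih =>
    by_cases hc : t < c.length
    · refine ⟨[], c, bs, rfl, t, hc, ?_, ?_⟩
      · rw [List.flatten_cons, List.drop_append_of_le_length hc.le]
      · rw [List.flatten_cons, List.take_append_of_le_length hc.le]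
        simp
    · push Not at hc
      rw [List.flatten_cons, List.length_append] at ht
      obtain ⟨l1, b, l2, e, k, hk, e1, e2⟩ := ih (t - c.length) (by omega)
      refine ⟨c :: l1, b, l2, by rw [e]; rfl, k, hk, ?_, ?_⟩
      · rw [List.flatten_cons, List.drop_append, List.drop_eq_nil_of_le hc, List.nil_append, e1]
      · rw [List.flatten_cons, List.take_append, List.take_of_length_le hc, e2, List.flatten_cons,
          List.append_assoc]

theorem arc_split (bs : List (List A)) (s : ℕ) (w : List A) (hw : w ≠ [])
    (h : w <+: bs.flatten.rotate s) :
    ∃ l1 b l2, bs = l1 ++ b :: l2 ∧ ∃ k, k < b.length ∧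
      w <+: b.drop k ++ (l2 ++ l1).flatten ++ b.take k := by
  have hne : bs.flatten ≠ [] := by
    intro h0
    rw [h0, List.rotate_nil] at h
    exact hw (List.prefix_nil.mp h)
  have hpos : 0 < bs.flatten.length := List.length_pos_iff.mpr hne
  have ht : s % bs.flatten.length < bs.flatten.length := Nat.mod_lt _ hpos
  rw [← List.rotate_mod, List.rotate_eq_drop_append_take ht.le] at h
  obtain ⟨l1, b, l2, e, k, hk, e1, e2⟩ := exists_block bs _ ht
  refine ⟨l1, b, l2, e, k, hk, ?_⟩
  rw [e1, e2] at h
  rw [List.flatten_append]
  simpa [List.append_assoc] using h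

theorem arc_cases {b rest w : List A} {k : ℕ} (hk : k < b.length)
    (h : w <+: b.drop k ++ rest ++ b.take k) :
    (w.length ≤ b.length - k ∧ w <:+: b) ∨
      (b.length - k < w.length ∧ w.take (b.length - k) <:+ b ∧
        (w.drop (b.length - k)).take rest.length <+: rest ∧
        w.drop (b.length - k + rest.length) <+: b ∧
        (w.drop (b.length - k + rest.length)).length ≤ k) := by
  have hlen : (b.drop k).length = b.length - k := List.length_drop ..
  have hp : b.drop k <+: b.drop k ++ rest ++ b.take k := by
    rw [List.append_assoc]
    exact List.prefix_append _ _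
  by_cases hw : w.length ≤ b.length - k
  · left
    refine ⟨hw, ?_⟩
    have h1 : w <+: b.drop k := List.prefix_of_prefix_length_le h hp (by rw [hlen]; exact hw)
    exact h1.isInfix.trans (List.drop_suffix _ _).isInfix
  · right
    push Not at hw
    have h1 : b.drop k <+: w := List.prefix_of_prefix_length_le hp h (by rw [hlen]; exact hw.le)
    obtain ⟨v, rfl⟩ := h1
    rw [List.append_assoc, List.prefix_append_right_inj] at h
    have et : (b.drop k ++ v).take (b.length - k) = b.drop k := by
      rw [← hlen, List.take_left]
    have ed : (b.drop k ++ v).drop (b.length - k) = v := by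
      rw [← hlen, List.drop_left]
    have ed2 : (b.drop k ++ v).drop (b.length - k + rest.length) = v.drop rest.length := by
      rw [← List.drop_drop, ed]
    rw [et, ed, ed2]
    have h3 : v.drop rest.length <+: b.take k := by
      have := h.drop rest.length
      rwa [List.drop_left] at this
    refine ⟨hw, List.drop_suffix _ _, ?_, h3.trans (List.take_prefix _ _), ?_⟩
    · apply List.prefix_of_prefix_length_le ((List.take_prefix _ _).trans h)
        (List.prefix_append _ _)
      rw [List.length_take]
      exact min_le_left _ _
    · refine h3.length_le.trans ?_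
      rw [List.length_take]
      exact min_le_left _ _

end Pool.Agent.PS
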