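import Pool.Agent.LibPS62.C3

/-!
# [PO57 C4] The probability of a prefix of a concatenation of independent blocks

A block is a random piece `Sum.inl i` (with the value `ω (z i)`) or a fixed word `Sum.inr u`.
* `lin_prefix`: induction on `bl`. `[]`: `w = []`, all is `1`. `inr u :: bl`: the event says that
  `w.take u.length` is a prefix of `u` (if not, the probability is `0`) and `w.drop u.length` a prefix
  of the rest; `1 ≤ g ^ |u| * mu p (w.take |u|)` as `1 ≤ g * p a` (`one_le_mu`), `b ^ .. ≥ 1`.
  `inl i :: bl`: the event implies `w.take n0 <+: ω (z i)` and `w.drop n0 <+: rest`, the rest does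
  not depend on the coordinate `i` (`bw_update`): `Pb_and_of_indep`, `IsPc.nice` with `su = []`.
  If `w.length ≤` the length of the head block then `w.drop .. = []` and the second event is sure.
-/

set_option autoImplicit false
set_option linter.unusedSectionVars false

namespace Pool.Agent.PS

open Finset

variable {A X ι : Type}

/-- the value of a block -/
def val (ω : X → List A) (z : ι → X) : ι ⊕ List A → List A := Sum.elim (fun i => ω (z i)) id

/-- the length of a block -/
def bln (n0 : ℕ) : ι ⊕ List A → ℕ := Sum.elim (fun _ => n0) List.length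

/-- the constant of a block -/
noncomputable def kap (g : ℝ) : ι ⊕ List A → ℝ := Sum.elim (fun _ => 2) (fun u => g ^ u.length)

/-- the concatenation of the blocks -/
def bw (ω : X → List A) (z : ι → X) (bl : List (ι ⊕ List A)) : List A :=
  (bl.map (val ω z)).flatten

/-- the indices of the random pieces -/
def pcs (bl : List (ι ⊕ List A)) : List ι := bl.filterMap Sum.getLeft?

variable [Fintype A] [Fintype X] [Fintype ι] [DecidableEq ι] {p : A → ℝ} {T : Set (List A)}
  {m0 : ℕ} {b g : ℝ} {n0 : ℕ} {q : X → ℝ} {ω : X → List A}

theorem one_le_mu (hp : ∀ a, 0 < p a) (hg : ∀ a, 1 ≤ g * p a) (w : List A) :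
    1 ≤ g ^ w.length * mu p w := by
  induction w with
  | nil => simp [mu]
  | cons a w ih =>
    have e : g ^ (a :: w).length * mu p (a :: w) = (g * p a) * (g ^ w.length * mu p w) := by
      simp only [mu, List.length_cons, List.map_cons, List.prod_cons, pow_succ]
      ring
    rw [e]
    exact one_le_mul_of_one_le_of_one_le (hg a) ih

theorem bw_length (hl : ∀ x, (ω x).length = n0) (z : ι → X) (bl : List (ι ⊕ List A)) :
    (bw ω z bl).length = (bl.map (bln n0)).sum := by
  induction bl with
  | nil => rfl
  | cons c bl ih =>
    have e : bw ω z (c :: bl) = val ω z c ++ bw ω z bl := rfl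
    rw [e, List.length_append, ih, List.map_cons, List.sum_cons]
    congr 1
    cases c with
    | inl i => exact hl _
    | inr u => rfl

theorem bw_update {bl : List (ι ⊕ List A)} {i : ι} (hi : i ∉ pcs bl) (z : ι → X) (x : X) :
    bw ω (Function.update z i x) bl = bw ω z bl := by
  induction bl with
  | nil => rfl
  | cons c bl ih =>
    have e : ∀ z : ι → X, bw ω z (c :: bl) = val ω z c ++ bw ω z bl := fun _ => rfl
    rw [e, e]
    cases c with
    | inl j =>
      have h1 : pcs (Sum.inl j :: bl) = j :: pcs bl := by simp [pcs]
      rw [h1, List.mem_cons, not_or] at hi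
      rw [ih hi.2]
      have h2 : val ω (Function.update z i x) (Sum.inl j : ι ⊕ List A) =
          val ω z (Sum.inl j : ι ⊕ List A) := by
        simp only [val, Sum.elim_inl]
        rw [Function.update_of_ne (Ne.symm hi.1)]
      rw [h2]
    | inr u =>
      have h1 : pcs (Sum.inr u :: bl) = pcs bl := rfl
      rw [h1] at hi
      rw [ih hi]
      rfl

theorem kap_nonneg (hg1 : 1 ≤ g) (c : ι ⊕ List A) : 0 ≤ kap g c := by
  cases c with
  | inl i => simp [kap]
  | inr u => exact pow_nonneg (zero_le_one.trans hg1) _

theorem prod_kap_nonneg (hg1 : 1 ≤ g) (bl : List (ι ⊕ List A)) : 0 ≤ (bl.map (kap g)).prod := by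
  apply List.prod_nonneg
  intro a ha
  obtain ⟨c, -, rfl⟩ := List.mem_map.1 ha
  exact kap_nonneg hg1 c

theorem prefix_append_iff' {w u v : List A} (h : w <+: u ++ v) :
    w.take u.length <+: u ∧ w.drop u.length <+: v := by
  obtain ⟨t, ht⟩ := h
  constructor
  · have h1 : (w ++ t).take u.length = u := by rw [ht, List.take_left']; rfl
    rw [List.take_append] at h1
    exact ⟨_, h1⟩
  · have h1 : (w ++ t).drop u.length = v := by rw [ht, List.drop_left']; rfl
    rw [List.drop_append] at h1
    exact ⟨_, h1⟩

theorem lin_prefix (hp : ∀ a, 0 < p a) (hb : 1 ≤ b) (hg1 : 1 ≤ g) (hg : ∀ a, 1 ≤ g * p a)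
    (h : IsPc p T m0 b n0 q ω) (bl : List (ι ⊕ List A)) (hnd : (pcs bl).Nodup) (w : List A)
    (hw : w.length ≤ (bl.map (bln n0)).sum) :
    Pb q (fun z : ι → X => w <+: bw ω z bl) ≤ (bl.map (kap g)).prod * (mu p w * b ^ w.length) := by
  have hQ : IsPr (pq q : (ι → X) → ℝ) := isPr_pq h.pr
  have hb0 : (0 : ℝ) ≤ b := zero_le_one.trans hb
  have hg0 : (0 : ℝ) ≤ g := zero_le_one.trans hg1
  induction bl generalizing w with
  | nil =>
    have hw0 : w = [] := by
      apply List.eq_nil_of_length_eq_zero
      simpa using hw
    subst hw0
    have : (([] : List (ι ⊕ List A)).map (kap g)).prod * (mu p ([] : List A) *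
        b ^ ([] : List A).length) = 1 := by simp [mu]
    rw [this]
    exact P1_le_one hQ _
  | cons c bl ih =>
    have e : ∀ z : ι → X, bw ω z (c :: bl) = val ω z c ++ bw ω z bl := fun _ => rfl
    have hprod : 0 ≤ (bl.map (kap g)).prod := prod_kap_nonneg hg1 bl
    cases c with
    | inl i =>
      have h1 : pcs (Sum.inl i :: bl) = i :: pcs bl := by simp [pcs]
      rw [h1, List.nodup_cons] at hnd
      have hw' : (w.drop n0).length ≤ (bl.map (bln n0)).sum := by
        rw [List.length_drop]
        simp only [List.map_cons, List.sum_cons, bln, Sum.elim_inl] at hw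
        have : (bl.map (bln n0)).sum = (bl.map (Sum.elim (fun _ : ι => n0) List.length)).sum := rfl
        omega
      have h2 := ih hnd.2 (w.drop n0) hw'
      have h3 : Pb q (fun z : ι → X => w <+: bw ω z (Sum.inl i :: bl)) ≤
          Pb q (fun z : ι → X => w.take n0 <+: ω (z i) ∧ w.drop n0 <+: bw ω z bl) := by
        apply P1_mono hQ
        intro z hz
        rw [e] at hz
        have h4 := prefix_append_iff' hz
        have h5 : (val ω z (Sum.inl i : ι ⊕ List A)).length = n0 := h.len _
        rw [h5] at h4
        exact h4
      have h4 : Pb q (fun z : ι → X => w.take n0 <+: ω (z i) ∧ w.drop n0 <+: bw ω z bl) =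
          P1 q (fun x => w.take n0 <+: ω x) * Pb q (fun z : ι → X => w.drop n0 <+: bw ω z bl) :=
        Pb_and_of_indep h.pr i (fun x => w.take n0 <+: ω x)
          (fun z : ι → X => w.drop n0 <+: bw ω z bl)
          (fun z x => by rw [bw_update hnd.1])
      have h5 : P1 q (fun x => w.take n0 <+: ω x) ≤
          2 * (mu p (w.take n0) * b ^ (w.take n0).length) := by
        have h6 := h.nice (w.take n0) [] (by simp)
        have h7 : P1 q (fun x => w.take n0 <+: ω x) ≤
            P1 q (fun x => w.take n0 <+: ω x ∧ ([] : List A) <:+ ω x) :=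
          P1_mono h.pr fun x hx => ⟨hx, List.nil_suffix⟩
        refine h7.trans (h6.trans (le_of_eq ?_))
        simp [mu]
      have hmu1 : 0 ≤ mu p (w.take n0) := (mu_pos hp _).le
      have hmu2 : 0 ≤ mu p (w.drop n0) := (mu_pos hp _).le
      have h8 : mu p w = mu p (w.take n0) * mu p (w.drop n0) := by
        rw [← mu_append, List.take_append_drop]
      have h9 : b ^ w.length = b ^ (w.take n0).length * b ^ (w.drop n0).length := by
        rw [← pow_add, ← List.length_append, List.take_append_drop]
      refine h3.trans ?_
      rw [h4]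
      calc P1 q (fun x => w.take n0 <+: ω x) * Pb q (fun z : ι → X => w.drop n0 <+: bw ω z bl)
          ≤ (2 * (mu p (w.take n0) * b ^ (w.take n0).length)) *
            ((bl.map (kap g)).prod * (mu p (w.drop n0) * b ^ (w.drop n0).length)) := by
            apply mul_le_mul h5 h2 (P1_nonneg hQ _)
            positivity
        _ = ((Sum.inl i :: bl).map (kap g)).prod * (mu p w * b ^ w.length) := by
            rw [h8, h9]
            simp only [List.map_cons, List.prod_cons, kap, Sum.elim_inl]
            ring
    | inr u =>
      have h1 : pcs (Sum.inr u :: bl) = pcs bl := rfl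
      rw [h1] at hnd
      have hw' : (w.drop u.length).length ≤ (bl.map (bln n0)).sum := by
        rw [List.length_drop]
        simp only [List.map_cons, List.sum_cons, bln, Sum.elim_inr] at hw
        have : (bl.map (bln n0)).sum = (bl.map (Sum.elim (fun _ : ι => n0) List.length)).sum := rfl
        omega
      have h2 := ih hnd (w.drop u.length) hw'
      have h3 : Pb q (fun z : ι → X => w <+: bw ω z (Sum.inr u :: bl)) ≤
          Pb q (fun z : ι → X => w.drop u.length <+: bw ω z bl) := by
        apply P1_mono hQ
        intro z hz
        rw [e] at hz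
        exact (prefix_append_iff' hz).2
      have hmu1 : 0 ≤ mu p (w.take u.length) := (mu_pos hp _).le
      have hmu2 : 0 ≤ mu p (w.drop u.length) := (mu_pos hp _).le
      have h8 : mu p w = mu p (w.take u.length) * mu p (w.drop u.length) := by
        rw [← mu_append, List.take_append_drop]
      have h9 : b ^ (w.drop u.length).length ≤ b ^ w.length :=
        pow_le_pow_right₀ hb (by rw [List.length_drop]; omega)
      have h10 : 1 ≤ g ^ u.length * mu p (w.take u.length) := by
        refine (one_le_mu hp hg (w.take u.length)).trans ?_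
        apply mul_le_mul_of_nonneg_right _ hmu1
        exact pow_le_pow_right₀ hg1 (by rw [List.length_take]; omega)
      refine h3.trans (h2.trans ?_)
      calc (bl.map (kap g)).prod * (mu p (w.drop u.length) * b ^ (w.drop u.length).length)
          ≤ (bl.map (kap g)).prod * (mu p (w.drop u.length) * b ^ w.length) := by
            apply mul_le_mul_of_nonneg_left _ hprod
            exact mul_le_mul_of_nonneg_left h9 hmu2
        _ = 1 * ((bl.map (kap g)).prod * (mu p (w.drop u.length) * b ^ w.length)) := by ring
        _ ≤ (g ^ u.length * mu p (w.take u.length)) *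
            ((bl.map (kap g)).prod * (mu p (w.drop u.length) * b ^ w.length)) := by
            apply mul_le_mul_of_nonneg_right h10
            positivity
        _ = ((Sum.inr u :: bl).map (kap g)).prod * (mu p w * b ^ w.length) := by
            rw [h8]
            simp only [List.map_cons, List.prod_cons, kap, Sum.elim_inr]
            ring

end Pool.Agent.PS
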