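import Pool.Agent.LibPS62.C4

/-!
# [PO57 C4b] The probability of an arc which starts in a given block

* `arc_prob`: `arc_cases`: the event implies that the block `c` has the suffix `w.take h` and the prefix
  `w'' = w.drop (h + Λ)` (`h = bln c - k`, `Λ` = the length of the rest), and
  `(w.drop h).take Λ <+: rest`. For `c = inl i`: `Pb_and_of_indep`, `IsPc.nice`, `lin_prefix`; for
  `c = inr u` as above. `w = w.take h ++ (w.drop h).take Λ ++ w''`, so the `mu` and the powers of `b`
  multiply to the right thing.
-/

set_option autoImplicit false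
set_option linter.unusedSectionVars false

namespace Pool.Agent.PS

open Finset

variable {A X ι : Type} [Fintype A] [Fintype X] [Fintype ι] [DecidableEq ι] {p : A → ℝ}
  {T : Set (List A)} {m0 : ℕ} {b g : ℝ} {n0 : ℕ} {q : X → ℝ} {ω : X → List A}

theorem val_length (hl : ∀ x, (ω x).length = n0) (z : ι → X) (c : ι ⊕ List A) :
    (val ω z c).length = bln n0 c := by
  cases c with
  | inl i => exact hl _
  | inr u => rfl

theorem arc_prob (hp : ∀ a, 0 < p a) (hb : 1 ≤ b) (hg1 : 1 ≤ g) (hg : ∀ a, 1 ≤ g * p a)
    (h : IsPc p T m0 b n0 q ω) (c : ι ⊕ List A) (rest : List (ι ⊕ List A))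
    (hnd : (pcs (c :: rest)).Nodup) {k : ℕ} (hk : k < bln n0 c) (w : List A)
    (h1 : bln n0 c - k < w.length) :
    Pb q (fun z : ι → X =>
      w <+: (val ω z c).drop k ++ bw ω z rest ++ (val ω z c).take k) ≤
        ((c :: rest).map (kap g)).prod * (mu p w * b ^ w.length) := by
  have hQ : IsPr (pq q : (ι → X) → ℝ) := isPr_pq h.pr
  have hb0 : (0 : ℝ) ≤ b := zero_le_one.trans hb
  have hg0 : (0 : ℝ) ≤ g := zero_le_one.trans hg1
  have hprod : 0 ≤ (rest.map (kap g)).prod := prod_kap_nonneg hg1 rest
  set hh : ℕ := bln n0 c - k with hhh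
  set L : ℕ := (rest.map (bln n0)).sum with hL
  set su : List A := w.take hh with hsu
  set mid : List A := (w.drop hh).take L with hmid
  set pr : List A := w.drop (hh + L) with hpr
  have hsplit : w = su ++ (mid ++ pr) := by
    rw [hsu, hmid, hpr, ← List.drop_drop, List.take_append_drop, List.take_append_drop]
  have hmu : mu p w = mu p su * (mu p mid * mu p pr) := by
    conv_lhs => rw [hsplit]
    rw [mu_append, mu_append]
  have hlen : w.length = su.length + (mid.length + pr.length) := by
    conv_lhs => rw [hsplit]
    rw [List.length_append, List.length_append]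
  have hmu1 : 0 ≤ mu p su := (mu_pos hp _).le
  have hmu2 : 0 ≤ mu p mid := (mu_pos hp _).le
  have hmu3 : 0 ≤ mu p pr := (mu_pos hp _).le
  have hmidl : mid.length ≤ (rest.map (bln n0)).sum := by
    rw [hmid, List.length_take]
    exact min_le_left _ _
  have hev : ∀ z : ι → X, w <+: (val ω z c).drop k ++ bw ω z rest ++ (val ω z c).take k →
      ((pr <+: val ω z c ∧ su <:+ val ω z c) ∧ mid <+: bw ω z rest) ∧ pr.length ≤ k := by
    intro z hz
    have hv : (val ω z c).length = bln n0 c := val_length h.len z c
    have hbw : (bw ω z rest).length = L := bw_length h.len z rest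
    rcases arc_cases (by rw [hv]; exact hk) hz with ⟨h2, -⟩ | ⟨-, h3, h4, h5, h6⟩
    · rw [hv] at h2
      exact absurd h1 (by omega)
    · rw [hv] at h3 h4 h5 h6
      rw [hbw] at h4 h5 h6
      exact ⟨⟨⟨h5, h3⟩, h4⟩, h6⟩
  have hsul : su.length ≤ hh := by
    rw [hsu, List.length_take]
    exact min_le_left _ _
  by_cases hprk : pr.length ≤ k
  · have hmidp : Pb q (fun z : ι → X => mid <+: bw ω z rest) ≤
        (rest.map (kap g)).prod * (mu p mid * b ^ mid.length) := by
      refine lin_prefix hp hb hg1 hg h rest ?_ mid hmidl
      cases c with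
      | inl i =>
        have e1 : pcs (Sum.inl i :: rest) = i :: pcs rest := by simp [pcs]
        rw [e1, List.nodup_cons] at hnd
        exact hnd.2
      | inr u => exact hnd
    cases c with
    | inl i =>
      have e1 : pcs (Sum.inl i :: rest) = i :: pcs rest := by simp [pcs]
      rw [e1, List.nodup_cons] at hnd
      have hkn : k < n0 := hk
      have hhn : hh = n0 - k := rfl
      have h3 : Pb q (fun z : ι → X =>
          w <+: (val ω z (Sum.inl i)).drop k ++ bw ω z rest ++ (val ω z (Sum.inl i)).take k) ≤
          Pb q (fun z : ι → X => (pr <+: ω (z i) ∧ su <:+ ω (z i)) ∧ mid <+: bw ω z rest) :=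
        P1_mono hQ fun z hz => (hev z hz).1
      have h4 : Pb q (fun z : ι → X => (pr <+: ω (z i) ∧ su <:+ ω (z i)) ∧ mid <+: bw ω z rest) =
          P1 q (fun x => pr <+: ω x ∧ su <:+ ω x) * Pb q (fun z : ι → X => mid <+: bw ω z rest) :=
        Pb_and_of_indep h.pr i (fun x => pr <+: ω x ∧ su <:+ ω x)
          (fun z : ι → X => mid <+: bw ω z rest)
          (fun z x => by rw [bw_update hnd.1])
      have h5 : P1 q (fun x => pr <+: ω x ∧ su <:+ ω x) ≤
          2 * (mu p pr * mu p su * b ^ (pr.length + su.length)) :=
        h.nice pr su (by omega)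
      refine h3.trans ?_
      rw [h4]
      calc P1 q (fun x => pr <+: ω x ∧ su <:+ ω x) * Pb q (fun z : ι → X => mid <+: bw ω z rest)
          ≤ (2 * (mu p pr * mu p su * b ^ (pr.length + su.length))) *
            ((rest.map (kap g)).prod * (mu p mid * b ^ mid.length)) := by
            apply mul_le_mul h5 hmidp (P1_nonneg hQ _)
            positivity
        _ = ((Sum.inl i :: rest).map (kap g)).prod * (mu p w * b ^ w.length) := by
            rw [hmu, hlen]
            simp only [List.map_cons, List.prod_cons, kap, Sum.elim_inl, pow_add]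
            ring
    | inr u =>
      have hku : k < u.length := hk
      have hhu : hh = u.length - k := rfl
      have h3 : Pb q (fun z : ι → X =>
          w <+: (val ω z (Sum.inr u)).drop k ++ bw ω z rest ++ (val ω z (Sum.inr u)).take k) ≤
          Pb q (fun z : ι → X => mid <+: bw ω z rest) :=
        P1_mono hQ fun z hz => (hev z hz).1.2
      have h8 : b ^ mid.length ≤ b ^ w.length := pow_le_pow_right₀ hb (by omega)
      have h9 : 1 ≤ g ^ u.length * (mu p su * mu p pr) := by
        have h10 : 1 ≤ g ^ (su ++ pr).length * mu p (su ++ pr) := one_le_mu hp hg _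
        rw [mu_append] at h10
        refine h10.trans ?_
        apply mul_le_mul_of_nonneg_right _ (by positivity)
        apply pow_le_pow_right₀ hg1
        rw [List.length_append]
        omega
      refine h3.trans (hmidp.trans ?_)
      calc (rest.map (kap g)).prod * (mu p mid * b ^ mid.length)
          ≤ (rest.map (kap g)).prod * (mu p mid * b ^ w.length) := by
            apply mul_le_mul_of_nonneg_left _ hprod
            exact mul_le_mul_of_nonneg_left h8 hmu2
        _ = 1 * ((rest.map (kap g)).prod * (mu p mid * b ^ w.length)) := by ring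
        _ ≤ (g ^ u.length * (mu p su * mu p pr)) *
            ((rest.map (kap g)).prod * (mu p mid * b ^ w.length)) := by
            apply mul_le_mul_of_nonneg_right h9
            positivity
        _ = ((Sum.inr u :: rest).map (kap g)).prod * (mu p w * b ^ w.length) := by
            rw [hmu]
            simp only [List.map_cons, List.prod_cons, kap, Sum.elim_inr]
            ring
  · have h3 : Pb q (fun z : ι → X =>
        w <+: (val ω z c).drop k ++ bw ω z rest ++ (val ω z c).take k) ≤
        P1 (pq q : (ι → X) → ℝ) (fun _ => False) :=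
      P1_mono hQ fun z hz => hprk (hev z hz).2
    rw [P1_false] at h3
    refine h3.trans ?_
    have := prod_kap_nonneg hg1 (c :: rest)
    have h7 : 0 ≤ mu p w := (mu_pos hp _).le
    positivity

end Pool.Agent.PS
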