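import Pool.Agent.LibPS62.C4b

/-!
# [PO57 C5] The probability of an arc in `T` on a circle of blocks

The event implies (`arc_split` for `bl.map (val ω z)`, `List.map_eq_append_iff`) that there are a
position `r < bl.length`, `c = bl[r]`, `rest = bl.drop (r + 1) ++ bl.take r`, `k < bln n0 c`,
with `w <+: (val c).drop k ++ bw rest ++ (val c).take k`; if `w.length ≤ bln n0 c - k` then `w` is a
factor of `val c` (`arc_cases`), but then `w ∉ T`: for `c = inl i` by `IsPc.good` and
`m0 ≤ m1 < |w|`, for `c = inr u` as `|w| ≤ |u| ≤ m1`. So with `h = bln n0 c - k`: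
`1 ≤ h < l = |w|`, `m1 < l ≤ Λ`. Union bound over `r ∈ range bl.length`, `l ∈ Ioc m1 Λ`,
`h ∈ range l`, `x : Fin l → A` with `ofFn x ∈ T`; `arc_prob` with `k = bln n0 c - h` for each
(`0 < h ≤ bln n0 c`; for other `h` the event is defined to be empty). The product of the constants
`kap` of the rotated list is the product for `bl`. Sum: `∑_x mu p (ofFn x) = mW p T l`.
-/

set_option autoImplicit false

namespace Pool.Agent.PS

open Finset

variable {A X ι : Type} [Fintype A] [Fintype X] [Fintype ι] [DecidableEq ι] {p : A → ℝ}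
  {T : Set (List A)} {m0 : ℕ} {b g : ℝ} {n0 : ℕ} {q : X → ℝ} {ω : X → List A}

private theorem C5_len (hl : ∀ x, (ω x).length = n0) (z : ι → X) (c : ι ⊕ List A) :
    (val ω z c).length = bln n0 c := by
  cases c with
  | inl i => exact hl _
  | inr u => rfl

private theorem C5_kap_nonneg (hg1 : 1 ≤ g) (bl : List (ι ⊕ List A)) :
    0 ≤ (bl.map (kap g)).prod := by
  refine List.prod_nonneg ?_
  intro a ha
  obtain ⟨c, -, rfl⟩ := List.mem_map.1 ha
  cases c with
  | inl i => exact zero_le_two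
  | inr u => exact pow_nonneg (zero_le_one.trans hg1) _

private theorem C5_perm (bl : List (ι ⊕ List A)) (r : Fin bl.length) :
    (bl.get r :: (bl.drop (r + 1) ++ bl.take r)).Perm bl := by
  have h1 : bl.take r ++ bl.get r :: bl.drop (r + 1) = bl := by
    have h2 : bl.get r :: bl.drop (r + 1) = bl.drop r := by
      rw [List.get_eq_getElem, List.getElem_cons_drop]
    rw [h2, List.take_append_drop]
  have h3 : (bl.get r :: (bl.drop (r + 1) ++ bl.take r)).Perm
      (bl.take r ++ bl.get r :: bl.drop (r + 1)) :=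
    List.perm_append_comm (l₁ := bl.get r :: bl.drop (r + 1)) (l₂ := bl.take r)
  exact h3.trans (by rw [h1])

/-- the event for one position, one length, one offset and one word -/
private def C5_F (T : Set (List A)) (n0 : ℕ) (ω : X → List A) (bl : List (ι ⊕ List A))
    (r : Fin bl.length) (l h' : ℕ) (x : Fin l → A) (z : ι → X) : Prop :=
  (List.ofFn x ∈ T ∧ 0 < h' ∧ h' ≤ bln n0 (bl.get r) ∧ h' < l) ∧
    List.ofFn x <+: (val ω z (bl.get r)).drop (bln n0 (bl.get r) - h') ++
      bw ω z (bl.drop (r + 1) ++ bl.take r) ++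
        (val ω z (bl.get r)).take (bln n0 (bl.get r) - h')

private theorem C5_step (h : IsPc p T m0 b n0 q ω) (bl : List (ι ⊕ List A)) {m1 : ℕ}
    (hm : m0 ≤ m1) (hu : ∀ u, Sum.inr u ∈ bl → u.length ≤ m1) (z : ι → X)
    (hz : ∃ s w, w ∈ T ∧ m1 < w.length ∧ w <+: (bw ω z bl).rotate s) :
    ∃ r ∈ (univ : Finset (Fin bl.length)), ∃ l ∈ Ioc m1 (bl.map (bln n0)).sum,
      ∃ h' ∈ range l, ∃ x ∈ (univ : Finset (Fin l → A)), C5_F T n0 ω bl r l h' x z := by
  obtain ⟨s, w, hwT, hw1, hw⟩ := hz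
  have hlw : w.length ≤ (bl.map (bln n0)).sum := by
    have h1 := hw.length_le
    rwa [List.length_rotate, bw_length h.len] at h1
  have hw0 : w ≠ [] := by
    rintro rfl
    simp at hw1
  obtain ⟨l1', b', l2', hbs, k, hk, hpre⟩ := arc_split (bl.map (val ω z)) s w hw0 hw
  obtain ⟨l1, l2'', hbl, hl1, hl2⟩ := List.map_eq_append_iff.1 hbs
  obtain ⟨c, l2, rfl, hc, hl2'⟩ := List.map_eq_cons_iff.1 hl2
  have hlt : l1.length < bl.length := by
    rw [hbl]; simp
  have hget : bl.get ⟨l1.length, hlt⟩ = c := by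
    simp [hbl]
  have hdrop : bl.drop (l1.length + 1) = l2 := by
    rw [hbl]; simp
  have htake : bl.take l1.length = l1 := by
    rw [hbl]; simp
  subst hc
  have hrest : (l2' ++ l1').flatten = bw ω z (l2 ++ l1) := by
    rw [bw, List.map_append, hl1, hl2']
  rw [hrest] at hpre
  have hcl := C5_len h.len z c
  rcases arc_cases hk hpre with ⟨h1, h2⟩ | ⟨h1, -⟩
  · exfalso
    have hcm : c ∈ bl := by rw [hbl]; simp
    cases c with
    | inl i => exact h.good (z i) w h2 (lt_of_le_of_lt hm hw1) hwT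
    | inr u =>
      have h3 : w.length ≤ u.length := h2.length_le
      have := hu u hcm
      omega
  · refine ⟨⟨l1.length, hlt⟩, mem_univ _, w.length, ?_, (val ω z c).length - k, ?_, w.get,
      mem_univ _, ?_⟩
    · rw [mem_Ioc]; exact ⟨hw1, hlw⟩
    · rw [mem_range]; exact h1
    · have hk' : bln n0 c - ((val ω z c).length - k) = k := by
        rw [← hcl]; omega
      unfold C5_F
      rw [hget]
      refine ⟨⟨?_, ?_, ?_, h1⟩, ?_⟩
      · rw [List.ofFn_get]; exact hwT
      · omega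
      · omega
      · rw [hk', List.ofFn_get]
        show w <+: _ ++ bw ω z (bl.drop (l1.length + 1) ++ bl.take l1.length) ++ _
        rw [hdrop, htake]
        exact hpre

private theorem C5_prob (hp : ∀ a, 0 < p a) (hb : 1 ≤ b) (hg1 : 1 ≤ g) (hg : ∀ a, 1 ≤ g * p a)
    (h : IsPc p T m0 b n0 q ω) (bl : List (ι ⊕ List A)) (hnd : (pcs bl).Nodup)
    (r : Fin bl.length) (l h' : ℕ) (x : Fin l → A) [Decidable (List.ofFn x ∈ T)] :
    P1 (pq q) (C5_F T n0 ω bl r l h' x) ≤
      if List.ofFn x ∈ T then (bl.map (kap g)).prod * (b ^ l * mu p (List.ofFn x)) else 0 := by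
  have hfalse : (∀ z, ¬ C5_F T n0 ω bl r l h' x z) → P1 (pq q) (C5_F T n0 ω bl r l h' x) ≤ 0 := by
    intro hh
    have h1 : P1 (pq q) (C5_F T n0 ω bl r l h' x) ≤ P1 (pq q) (fun _ : ι → X => False) :=
      P1_mono (isPr_pq h.pr) (fun z hz => hh z hz)
    rwa [P1_false] at h1
  split_ifs with hT
  · by_cases hh : 0 < h' ∧ h' ≤ bln n0 (bl.get r) ∧ h' < l
    · obtain ⟨h1, h2, h3⟩ := hh
      have hperm := C5_perm bl r
      have hnd' : (pcs (bl.get r :: (bl.drop (r + 1) ++ bl.take r))).Nodup :=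
        ((hperm.filterMap _).nodup_iff).2 hnd
      have h4 := arc_prob (ω := ω) hp hb hg1 hg h (bl.get r) (bl.drop (r + 1) ++ bl.take r) hnd'
        (k := bln n0 (bl.get r) - h') (by omega) (List.ofFn x)
        (by rw [List.length_ofFn]; omega)
      have h5 : ((bl.get r :: (bl.drop (r + 1) ++ bl.take r)).map (kap g)).prod =
          (bl.map (kap g)).prod := (hperm.map _).prod_eq
      rw [h5, List.length_ofFn, mul_comm (mu p (List.ofFn x))] at h4
      refine le_trans ?_ h4
      exact P1_mono (isPr_pq h.pr) (fun z hz => hz.2)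
    · refine (hfalse ?_).trans ?_
      · intro z hz
        exact hh hz.1.2
      · exact mul_nonneg (C5_kap_nonneg hg1 bl) (mul_nonneg (pow_nonneg (zero_le_one.trans hb) _)
          (mu_nonneg (fun a => (hp a).le) _))
  · exact hfalse fun z hz => hT hz.1.1

theorem circle_prob (hp : ∀ a, 0 < p a) (hb : 1 ≤ b) (hg1 : 1 ≤ g) (hg : ∀ a, 1 ≤ g * p a)
    (h : IsPc p T m0 b n0 q ω) (bl : List (ι ⊕ List A)) (hnd : (pcs bl).Nodup) {m1 : ℕ}
    (hm : m0 ≤ m1) (hu : ∀ u, Sum.inr u ∈ bl → u.length ≤ m1) :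
    Pb q (fun z : ι → X => ∃ s w, w ∈ T ∧ m1 < w.length ∧ w <+: (bw ω z bl).rotate s) ≤
      bl.length * ((bl.map (kap g)).prod *
        ∑ l ∈ Ioc m1 (bl.map (bln n0)).sum, (l : ℝ) * (b ^ l * mW p T l)) := by
  classical
  have hpr : IsPr (pq q : (ι → X) → ℝ) := isPr_pq h.pr
  have hm' : ∀ l, mW p T l = ∑ x : Fin l → A, if List.ofFn x ∈ T then mu p (List.ofFn x) else 0 := by
    intro l
    unfold mW
    refine sum_congr rfl fun x _ => ?_
    split_ifs <;> rfl
  calc Pb q (fun z : ι → X => ∃ s w, w ∈ T ∧ m1 < w.length ∧ w <+: (bw ω z bl).rotate s)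
      ≤ P1 (pq q) (fun z => ∃ r ∈ (univ : Finset (Fin bl.length)),
          ∃ l ∈ Ioc m1 (bl.map (bln n0)).sum,
          ∃ h' ∈ range l, ∃ x ∈ (univ : Finset (Fin l → A)), C5_F T n0 ω bl r l h' x z) :=
        P1_mono hpr (C5_step h bl hm hu)
    _ ≤ ∑ r : Fin bl.length, P1 (pq q) (fun z => ∃ l ∈ Ioc m1 (bl.map (bln n0)).sum,
          ∃ h' ∈ range l, ∃ x ∈ (univ : Finset (Fin l → A)), C5_F T n0 ω bl r l h' x z) :=
        P1_exists hpr _ _
    _ ≤ ∑ r : Fin bl.length, ∑ l ∈ Ioc m1 (bl.map (bln n0)).sum, ∑ h' ∈ range l,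
          ∑ x : Fin l → A, P1 (pq q) (C5_F T n0 ω bl r l h' x) := by
        refine sum_le_sum fun r _ => (P1_exists hpr _ _).trans (sum_le_sum fun l _ => ?_)
        refine (P1_exists hpr _ _).trans (sum_le_sum fun h' _ => ?_)
        exact P1_exists hpr _ _
    _ ≤ ∑ r : Fin bl.length, ∑ l ∈ Ioc m1 (bl.map (bln n0)).sum, ∑ h' ∈ range l,
          ∑ x : Fin l → A, (if List.ofFn x ∈ T then
            (bl.map (kap g)).prod * (b ^ l * mu p (List.ofFn x)) else 0) := by
        refine sum_le_sum fun r _ => sum_le_sum fun l _ => sum_le_sum fun h' _ =>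
          sum_le_sum fun x _ => C5_prob hp hb hg1 hg h bl hnd r l h' x
    _ = bl.length * ((bl.map (kap g)).prod *
        ∑ l ∈ Ioc m1 (bl.map (bln n0)).sum, (l : ℝ) * (b ^ l * mW p T l)) := by
        rw [sum_const, card_univ, Fintype.card_fin, nsmul_eq_mul]
        congr 1
        rw [mul_sum]
        refine sum_congr rfl fun l _ => ?_
        rw [sum_const, card_range, nsmul_eq_mul, hm' l, mul_left_comm (bl.map (kap g)).prod]
        congr 1
        rw [mul_sum, mul_sum]
        refine sum_congr rfl fun x _ => ?_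
        split_ifs
        · rfl
        · simp

end Pool.Agent.PS
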