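import Pool.Agent.LibPS62.C6

/-!
# [PO57 C7] No long arc in `T` on any circle, uniformly in the length of the pieces

`circles_prob`: `g := ∑ a, (p a)⁻¹` (so `1 ≤ g * p a`, `1 ≤ g`). The series
`l * (b ^ l * mW p T l)` is summable: `l ≤ c₀ * b ^ l` and `(b ^ 2) ^ l * mW p T l` is summable. Let
`M` be the number of the patterns (`isPat_finite`). Choose `m1 ≥ max m0 Q` such that the sums of
`l * (b ^ l * mW p T l)` over `Ioc m1 n` are at most
`1 / (4 * (M * (Q * (Kmax + 1)) * (2 ^ Kmax * g ^ Q) ^ Q + 1))` for all `n`. Then `Pb_curry`, union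
bound over the patterns (`P1_exists`, `P1_mono`), `circle_prob` for `blP K circ`, `bw_blP`.
-/

set_option autoImplicit false

namespace Pool.Agent.PS

open Finset

/-- some circle of a pattern has an arc in `T` of length greater than `m1` -/
def BadArc (T : Set (List Bool)) (m1 : ℕ) {N : ℕ} (Q : ℕ) (Z : Fin N → List (List Bool)) : Prop :=
  ∃ circ : List (Fin N ⊕ ℕ), IsPat Q circ ∧
    ∃ s w, w ∈ T ∧ m1 < w.length ∧ w <+: (cwS Z circ).rotate s

private theorem C7_tail {f : ℕ → ℝ} (hf : Summable f) {ε : ℝ} (hε : 0 < ε) :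
    ∃ m : ℕ, ∀ m1, m ≤ m1 → ∀ n, ∑ l ∈ Ioc m1 n, f l ≤ ε := by
  obtain ⟨s, hs⟩ := summable_iff_vanishing_norm.mp hf ε hε
  refine ⟨s.sup id, fun m1 hm1 n => ?_⟩
  refine le_trans (le_trans (le_abs_self _) (by rw [Real.norm_eq_abs])) (hs (Ioc m1 n) ?_).le
  rw [Finset.disjoint_left]
  intro l hl hls
  have h1 : l ≤ s.sup id := Finset.le_sup (f := id) hls
  have h2 := (Finset.mem_Ioc.mp hl).1
  omega

private theorem C7_summable {p : Bool → ℝ} (hp : ∀ a, 0 < p a) {T : Set (List Bool)} {b : ℝ}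
    (hb : 1 < b) (hs : Summable fun l : ℕ => mW p T l * (b ^ 2) ^ l) :
    Summable fun l : ℕ => (l : ℝ) * (b ^ l * mW p T l) := by
  refine Summable.of_nonneg_of_le (fun l => ?_) (fun l => ?_) (hs.mul_left (b - 1)⁻¹)
  · exact mul_nonneg (Nat.cast_nonneg _)
      (mul_nonneg (by positivity) (mW_nonneg (fun a => (hp a).le) _ _))
  · have h0 : 0 < b - 1 := by linarith
    have h1 : (l : ℝ) ≤ (b - 1)⁻¹ * b ^ l := by
      have h2 := one_add_mul_le_pow (show (-2 : ℝ) ≤ b - 1 by linarith) l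
      have h3 : (l : ℝ) * (b - 1) ≤ b ^ l := by
        have : (1 + (b - 1)) = b := by ring
        rw [this] at h2
        linarith
      rw [inv_mul_eq_div, le_div_iff₀ h0]
      exact h3
    have h4 : 0 ≤ b ^ l * mW p T l :=
      mul_nonneg (by positivity) (mW_nonneg (fun a => (hp a).le) _ _)
    calc (l : ℝ) * (b ^ l * mW p T l) ≤ ((b - 1)⁻¹ * b ^ l) * (b ^ l * mW p T l) :=
          mul_le_mul_of_nonneg_right h1 h4
      _ = (b - 1)⁻¹ * (mW p T l * (b ^ 2) ^ l) := by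
          rw [← pow_mul, mul_comm 2 l, pow_mul, sq]
          ring

theorem circles_prob {p : Bool → ℝ} (hp : ∀ a, 0 < p a) (hp1 : ∑ a, p a = 1)
    {T : Set (List Bool)} {b : ℝ} (hb : 1 < b)
    (hs : Summable fun l : ℕ => mW p T l * (b ^ 2) ^ l) (m0 N Kmax Q : ℕ) :
    ∃ m1, m0 ≤ m1 ∧ ∀ (n0 : ℕ) (X : Type) [Fintype X] (q : X → ℝ) (ω : X → List Bool),
      IsPc p T m0 b n0 q ω → ∀ K ≤ Kmax,
        Pb (pq q) (fun z : Fin N → Fin K → X =>
          BadArc T m1 Q fun i => List.ofFn fun k => ω (z i k)) ≤ 1 / 4 := by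
  classical
  set g : ℝ := ∑ a, (p a)⁻¹ with hg
  have hginv : ∀ a, (p a)⁻¹ ≤ g := fun a =>
    Finset.single_le_sum (f := fun a => (p a)⁻¹) (fun i _ => inv_nonneg.mpr (hp i).le)
      (Finset.mem_univ a)
  have hgp : ∀ a, 1 ≤ g * p a := fun a => by
    have h1 := mul_le_mul_of_nonneg_right (hginv a) (hp a).le
    rwa [inv_mul_cancel₀ (hp a).ne'] at h1
  have hg1 : 1 ≤ g := by
    have h1 : p true ≤ 1 := by
      rw [← hp1]
      exact Finset.single_le_sum (f := p) (fun i _ => (hp i).le) (Finset.mem_univ true)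
    exact le_trans ((one_le_inv₀ (hp true)).mpr h1) (hginv true)
  set pats : Finset (List (Fin N ⊕ ℕ)) := (isPat_finite N Q).toFinset with hpats
  set C : ℝ := ((Q * (Kmax + 1) : ℕ) : ℝ) * (2 ^ Kmax * g ^ Q) ^ Q with hC
  have hC0 : 0 ≤ C := by positivity
  have hD : 0 < 4 * ((pats.card : ℝ) * C + 1) := by positivity
  obtain ⟨m, hm⟩ := C7_tail (C7_summable hp hb hs) (one_div_pos.mpr hD)
  refine ⟨max (max m0 Q) m, le_trans (le_max_left _ _) (le_max_left _ _), ?_⟩
  set m1 := max (max m0 Q) m with hm1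
  have hm0 : m0 ≤ m1 := le_trans (le_max_left _ _) (le_max_left _ _)
  have hQ : Q ≤ m1 := le_trans (le_max_right _ _) (le_max_left _ _)
  intro n0 X _ q ω hpc K hK
  rw [Pb_curry q fun z : Fin N → Fin K → X =>
    BadArc T m1 Q fun i => List.ofFn fun k => ω (z i k), Pb_eq]
  have hpr : IsPr (pq q : (Fin N × Fin K → X) → ℝ) := isPr_pq hpc.pr
  have h1 : P1 (pq q) (fun z : Fin N × Fin K → X =>
      BadArc T m1 Q fun i => List.ofFn fun k => ω (z (i, k))) ≤
      P1 (pq q) (fun z : Fin N × Fin K → X => ∃ circ ∈ pats, ∃ s w, w ∈ T ∧ m1 < w.length ∧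
        w <+: (bw ω z (blP K circ)).rotate s) := by
    refine P1_mono hpr ?_
    rintro z ⟨circ, hc, s, w, hw, hl, hpre⟩
    refine ⟨circ, ?_, s, w, hw, hl, ?_⟩
    · rw [hpats, Set.Finite.mem_toFinset]
      exact hc
    · rw [bw_blP]
      exact hpre
  have h2 := P1_exists hpr pats (fun circ (z : Fin N × Fin K → X) => ∃ s w, w ∈ T ∧
    m1 < w.length ∧ w <+: (bw ω z (blP K circ)).rotate s)
  have h3 : ∀ circ ∈ pats, P1 (pq q) (fun z : Fin N × Fin K → X => ∃ s w, w ∈ T ∧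
      m1 < w.length ∧ w <+: (bw ω z (blP K circ)).rotate s) ≤
      C * (1 / (4 * ((pats.card : ℝ) * C + 1))) := by
    intro circ hcirc
    have hc : IsPat Q circ := by
      rw [hpats, Set.Finite.mem_toFinset] at hcirc
      exact hcirc
    have h4 := circle_prob hp hb.le hg1 hgp hpc (blP K circ) (pcs_blP hc) hm0
      (fun u hu => le_trans (blP_inr hc u hu) hQ)
    rw [Pb_eq] at h4
    refine le_trans h4 ?_
    have h5 : ((blP K circ).length : ℝ) ≤ ((Q * (Kmax + 1) : ℕ) : ℝ) := by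
      refine Nat.cast_le.mpr (le_trans (blP_length hc) ?_)
      exact Nat.mul_le_mul_left Q (by omega)
    have h6 := blP_kap (K := K) hc hg1
    have h7 : (((blP K circ).map (kap g)).prod) ≤ (2 ^ Kmax * g ^ Q) ^ Q := by
      refine le_trans h6.2 (pow_le_pow_left₀ (by positivity) ?_ Q)
      refine mul_le_mul_of_nonneg_right (pow_le_pow_right₀ one_le_two hK) (by positivity)
    have h8 : 0 ≤ ∑ l ∈ Ioc m1 ((blP K circ).map (bln n0)).sum, (l : ℝ) * (b ^ l * mW p T l) :=
      Finset.sum_nonneg fun l _ => mul_nonneg (Nat.cast_nonneg _)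
        (mul_nonneg (by positivity) (mW_nonneg (fun a => (hp a).le) _ _))
    have h9 := hm m1 (le_max_right _ _) ((blP K circ).map (bln n0)).sum
    calc ((blP K circ).length : ℝ) * (((blP K circ).map (kap g)).prod *
        ∑ l ∈ Ioc m1 ((blP K circ).map (bln n0)).sum, (l : ℝ) * (b ^ l * mW p T l))
        ≤ ((Q * (Kmax + 1) : ℕ) : ℝ) * ((2 ^ Kmax * g ^ Q) ^ Q *
          (1 / (4 * ((pats.card : ℝ) * C + 1)))) := by
          refine mul_le_mul h5 ?_ (mul_nonneg h6.1 h8) (Nat.cast_nonneg _)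
          exact mul_le_mul h7 h9 h8 (by positivity)
      _ = C * (1 / (4 * ((pats.card : ℝ) * C + 1))) := by
          rw [hC]
          ring
  refine le_trans h1 (le_trans h2 (le_trans (Finset.sum_le_sum h3) ?_))
  rw [Finset.sum_const, nsmul_eq_mul, ← mul_assoc, mul_one_div, div_le_iff₀ hD]
  have : 0 ≤ (pats.card : ℝ) * C := by positivity
  linarith

end Pool.Agent.PS
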