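import Mathlib

/-!
# [POLES, probability half] Definitions

* `Ev q f`: the expectation of `f : (ι → X) → ℝ` for independent coordinates with the weights `q`.
* `Pb q E`: the probability of the event `E`.
* `mu p w`: the product of the weights of the letters of the word `w`.
* `Wd T m0 w`: no factor of `w` of length greater than `m0` is in `T`.
* `mW p S n`: the measure of the words of length `n` in `S`.
-/

set_option autoImplicit false

namespace Pool.Agent.PS

open Finset

/-- a vector of probabilities -/
structure IsPr {X : Type} [Fintype X] (q : X → ℝ) : Prop where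
  nonneg : ∀ x, 0 ≤ q x
  sum_eq : ∑ x, q x = 1

/-- the expectation of `f` for one variable -/
noncomputable def E1 {X : Type} [Fintype X] (q : X → ℝ) (f : X → ℝ) : ℝ := ∑ x, q x * f x

/-- the product weights -/
noncomputable def pq {ι X : Type} [Fintype ι] (q : X → ℝ) (z : ι → X) : ℝ := ∏ i, q (z i)

/-- the expectation of `f` for independent coordinates -/
noncomputable def Ev {ι X : Type} [Fintype ι] [DecidableEq ι] [Fintype X] (q : X → ℝ)
    (f : (ι → X) → ℝ) : ℝ := E1 (pq q) f

open scoped Classical in
/-- the probability of an event -/
noncomputable def Pb {ι X : Type} [Fintype ι] [DecidableEq ι] [Fintype X] (q : X → ℝ)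
    (E : (ι → X) → Prop) : ℝ := Ev q fun z => if E z then 1 else 0

open scoped Classical in
/-- the probability of an event for one variable -/
noncomputable def P1 {X : Type} [Fintype X] (q : X → ℝ) (E : X → Prop) : ℝ :=
  E1 q fun z => if E z then 1 else 0

/-- the measure of a word -/
noncomputable def mu {A : Type} (p : A → ℝ) (w : List A) : ℝ := (w.map p).prod

/-- no factor of length greater than `m0` is in `T` -/
def Wd {A : Type} (T : Set (List A)) (m0 : ℕ) (w : List A) : Prop :=
  ∀ u, u <:+: w → m0 < u.length → u ∉ T

open scoped Classical in
/-- the measure of the words of length `n` in `S` -/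
noncomputable def mW {A : Type} [Fintype A] (p : A → ℝ) (S : Set (List A)) (n : ℕ) : ℝ :=
  ∑ x : Fin n → A, if List.ofFn x ∈ S then mu p (List.ofFn x) else 0

end Pool.Agent.PS
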