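import Pool.Agent.LibPS62.Defs

/-!
# [PO57 S1] Finite expectations: basics
All one-variable statements are `Finset` sums; `Ev q` is `E1 (pq q)` and `Pb q` is `P1 (pq q)` by
definition (`Pb_eq`), so everything for `Ev`, `Pb` follows from `isPr_pq` and the statements for
`E1`, `P1`.
-/

set_option autoImplicit false

namespace Pool.Agent.PS

open Finset

section one

variable {X : Type} [Fintype X] {q : X → ℝ}

theorem E1_add (f g : X → ℝ) : E1 q (fun x => f x + g x) = E1 q f + E1 q g := by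
  unfold E1
  rw [← sum_add_distrib]
  exact sum_congr rfl fun x _ => mul_add _ _ _

theorem E1_sub (f g : X → ℝ) : E1 q (fun x => f x - g x) = E1 q f - E1 q g := by
  unfold E1
  rw [← sum_sub_distrib]
  exact sum_congr rfl fun x _ => mul_sub _ _ _

theorem E1_mul (a : ℝ) (f : X → ℝ) : E1 q (fun x => a * f x) = a * E1 q f := by
  unfold E1
  rw [mul_sum]
  exact sum_congr rfl fun x _ => mul_left_comm _ _ _

theorem E1_sum {S : Type} (s : Finset S) (f : S → X → ℝ) :
    E1 q (fun x => ∑ a ∈ s, f a x) = ∑ a ∈ s, E1 q (f a) := by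
  unfold E1
  rw [sum_comm]
  exact sum_congr rfl fun x _ => mul_sum _ _ _

theorem IsPr.E1_const (h : IsPr q) (a : ℝ) : E1 q (fun _ => a) = a := by
  unfold E1
  rw [← sum_mul, h.sum_eq, one_mul]

theorem IsPr.E1_mono (h : IsPr q) {f g : X → ℝ} (hfg : ∀ x, f x ≤ g x) : E1 q f ≤ E1 q g := by
  unfold E1
  exact sum_le_sum fun x _ => mul_le_mul_of_nonneg_left (hfg x) (h.nonneg x)

theorem P1_nonneg (h : IsPr q) (E : X → Prop) : 0 ≤ P1 q E := by
  unfold P1 E1
  refine sum_nonneg fun x _ => mul_nonneg (h.nonneg x) ?_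
  beta_reduce
  split_ifs
  · exact zero_le_one
  · exact le_rfl

theorem P1_mono (h : IsPr q) {E F : X → Prop} (hEF : ∀ x, E x → F x) : P1 q E ≤ P1 q F := by
  unfold P1
  refine h.E1_mono fun x => ?_
  by_cases hE : E x
  · rw [if_pos hE, if_pos (hEF x hE)]
  · rw [if_neg hE]
    split_ifs
    · exact zero_le_one
    · exact le_rfl

theorem P1_or (h : IsPr q) (E F : X → Prop) : P1 q (fun x => E x ∨ F x) ≤ P1 q E + P1 q F := by
  unfold P1
  rw [← E1_add]
  refine h.E1_mono fun x => ?_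
  by_cases hE : E x <;> by_cases hF : F x <;> simp [hE, hF]

/-- union bound -/
theorem P1_exists (h : IsPr q) {S : Type} (s : Finset S) (E : S → X → Prop) :
    P1 q (fun x => ∃ a ∈ s, E a x) ≤ ∑ a ∈ s, P1 q (E a) := by
  classical
  unfold P1
  rw [← E1_sum]
  refine h.E1_mono fun x => ?_
  split_ifs with hx
  · obtain ⟨a, ha, hax⟩ := hx
    have h1 : (if E a x then (1 : ℝ) else 0) ≤ ∑ a ∈ s, if E a x then (1 : ℝ) else 0 :=
      single_le_sum (f := fun a => if E a x then (1 : ℝ) else 0)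
        (fun b _ => by split_ifs <;> norm_num) ha
    rw [if_pos hax] at h1
    exact h1
  · exact sum_nonneg fun b _ => by split_ifs <;> norm_num

theorem P1_false : P1 q (fun _ => False) = 0 := by
  unfold P1 E1
  simp

theorem P1_le_one (h : IsPr q) (E : X → Prop) : P1 q E ≤ 1 := by
  have h1 : P1 q E ≤ E1 q (fun _ => (1 : ℝ)) := by
    unfold P1
    refine h.E1_mono fun x => ?_
    split_ifs <;> norm_num
  rw [h.E1_const] at h1
  exact h1

/-- if the probability is less than `1` then some point is not in the event -/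
theorem exists_not_of_P1_lt (h : IsPr q) {E : X → Prop} (hE : P1 q E < 1) : ∃ x, ¬ E x := by
  by_contra hcon
  have hall : ∀ x, E x := fun x => by
    by_contra hx
    exact hcon ⟨x, hx⟩
  have h1 : P1 q E = E1 q (fun _ => (1 : ℝ)) := by
    unfold P1
    congr 1
    funext x
    rw [if_pos (hall x)]
  rw [h1, h.E1_const] at hE
  exact lt_irrefl _ hE

/-- Markov -/
theorem P1_markov (h : IsPr q) {f : X → ℝ} (hf : ∀ x, 0 ≤ f x) {a : ℝ} (ha : 0 < a) :
    P1 q (fun x => a < f x) ≤ E1 q f / a := by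
  rw [div_eq_inv_mul, ← E1_mul]
  unfold P1
  refine h.E1_mono fun x => ?_
  split_ifs with hx
  · rw [inv_mul_eq_div, le_div_iff₀ ha, one_mul]
    exact hx.le
  · exact mul_nonneg (inv_nonneg.2 ha.le) (hf x)

end one

section many

variable {ι X : Type} [Fintype ι] [DecidableEq ι] [Fintype X] {q : X → ℝ}

theorem Ev_eq (f : (ι → X) → ℝ) : Ev q f = E1 (pq q) f := rfl

theorem Pb_eq (E : (ι → X) → Prop) : Pb q E = P1 (pq q) E := rfl

/-- `Finset.prod_univ_sum`, `Fintype.piFinset_univ` -/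
theorem isPr_pq (h : IsPr q) : IsPr (pq q : (ι → X) → ℝ) := by
  refine ⟨fun z => prod_nonneg fun i _ => h.nonneg _, ?_⟩
  have h1 : ∏ _i : ι, ∑ x, q x = ∑ z : ι → X, ∏ i, q (z i) := by
    rw [prod_univ_sum, Fintype.piFinset_univ]
  unfold pq
  rw [← h1]
  simp [h.sum_eq]

end many

end Pool.Agent.PS
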