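import Pool.Agent.LibPS62.S2
import Pool.Agent.LibPS62.S3

/-!
# [PO57 S4] Averages of subadditive functions, blocks

`av q F k = E F(X^k) / k`. `bs F m k s`: the sum of `F` over the `m` blocks of length `k` of `s`.
* `le_flatten`: induction on the list of lists.
* `av_mul_le`: `Ev_blocks`, `le_flatten`, linearity of `Ev`, `Ev_one`.
* `le_bs`: `s` is the concatenation of its blocks; induction on `m` (`bs F (m+1) k s = bs F m k
  (s.take (m*k)) + F ((s.drop (m*k)).take k)`), or `le_flatten`.
* `bs_flatten`: the `i`-th block of the concatenation of lists of length `k`; induction on `m`, or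
  `List.ofFn_mul` read backwards.
-/

set_option autoImplicit false

namespace Pool.Agent.PS

open Finset

variable {X : Type} [Fintype X] {q : X → ℝ}

/-- the average of `F` on the sequences of length `k`, divided by `k` -/
noncomputable def av (q : X → ℝ) (F : List X → ℝ) (k : ℕ) : ℝ :=
  Ev q (fun z : Fin k → X => F (List.ofFn z)) / k

/-- the sum of `F` over the `m` blocks of length `k` of `s` -/
noncomputable def bs (F : List X → ℝ) (m k : ℕ) (s : List X) : ℝ :=
  ∑ i ∈ range m, F ((s.drop (i * k)).take k)

theorem av_mem (h : IsPr q) {F : List X → ℝ} {c C : ℝ} {k : ℕ} (hk : 0 < k)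
    (hF : ∀ s : List X, s.length = k → -c * k ≤ F s ∧ F s ≤ C * k) :
    -c ≤ av q F k ∧ av q F k ≤ C := by
  have hp : IsPr (pq q : (Fin k → X) → ℝ) := isPr_pq h
  have hk' : (0 : ℝ) < k := by exact_mod_cast hk
  have h1 : -c * k ≤ Ev q (fun z : Fin k → X => F (List.ofFn z)) := by
    rw [Ev_eq, ← hp.E1_const (-c * k)]
    exact hp.E1_mono fun z => (hF _ (List.length_ofFn)).1
  have h2 : Ev q (fun z : Fin k → X => F (List.ofFn z)) ≤ C * k := by
    rw [Ev_eq, ← hp.E1_const (C * k)]
    exact hp.E1_mono fun z => (hF _ (List.length_ofFn)).2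
  unfold av
  exact ⟨(le_div_iff₀ hk').mpr h1, (div_le_iff₀ hk').mpr h2⟩

theorem le_flatten {F : List X → ℝ} {L : ℕ} (h0 : F [] ≤ 0)
    (hs : ∀ s s' : List X, s.length + s'.length ≤ L → F (s ++ s') ≤ F s + F s')
    (l : List (List X)) (hl : l.flatten.length ≤ L) : F l.flatten ≤ (l.map F).sum := by
  induction l with
  | nil => simpa using h0
  | cons a l ih =>
    rw [List.flatten_cons, List.length_append] at hl
    rw [List.flatten_cons, List.map_cons, List.sum_cons]
    have h1 := hs a l.flatten hl
    have h2 := ih (by omega)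
    linarith

private theorem S4_len (m k : ℕ) (y : Fin m → Fin k → X) :
    (List.ofFn fun i => List.ofFn (y i)).flatten.length = m * k := by
  rw [List.length_flatten, List.map_ofFn, List.sum_ofFn]
  simp

theorem av_mul_le (h : IsPr q) {F : List X → ℝ} {L m k : ℕ} (hm : 0 < m) (hk : 0 < k)
    (hL : m * k ≤ L) (h0 : F [] ≤ 0)
    (hs : ∀ s s' : List X, s.length + s'.length ≤ L → F (s ++ s') ≤ F s + F s') :
    av q F (m * k) ≤ av q F k := by
  have hp : IsPr (pq q : (Fin k → X) → ℝ) := isPr_pq h
  have hpp : IsPr (pq (pq q : (Fin k → X) → ℝ) : (Fin m → Fin k → X) → ℝ) := isPr_pq hp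
  have hk' : (0 : ℝ) < k := by exact_mod_cast hk
  have hm' : (0 : ℝ) < m := by exact_mod_cast hm
  have h1 : Ev q (fun z : Fin (m * k) → X => F (List.ofFn z)) ≤
      m * Ev q (fun z : Fin k → X => F (List.ofFn z)) := by
    rw [Ev_blocks q m k F]
    have h2 : Ev (pq q) (fun y : Fin m → Fin k → X =>
        F (List.ofFn fun i => List.ofFn (y i)).flatten) ≤
        Ev (pq q) (fun y : Fin m → Fin k → X => ∑ i, F (List.ofFn (y i))) := by
      rw [Ev_eq, Ev_eq]
      refine hpp.E1_mono fun y => ?_
      have h3 := le_flatten h0 hs (List.ofFn fun i => List.ofFn (y i))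
        ((S4_len m k y).le.trans hL)
      rw [List.map_ofFn, List.sum_ofFn] at h3
      exact h3
    refine h2.trans (le_of_eq ?_)
    rw [Ev_eq, E1_sum]
    have h4 : ∀ i : Fin m, E1 (pq (pq q)) (fun y : Fin m → Fin k → X => F (List.ofFn (y i))) =
        Ev q (fun z : Fin k → X => F (List.ofFn z)) := fun i =>
      Ev_one hp i (fun z : Fin k → X => F (List.ofFn z))
    rw [sum_congr rfl fun i _ => h4 i]
    simp
  unfold av
  rw [div_le_div_iff₀ (by positivity) hk']
  push_cast
  nlinarith

private theorem S4_block (k : ℕ) (l : List (List X)) (hl : ∀ a ∈ l, a.length = k) (i : ℕ)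
    (hi : i < l.length) : (l.flatten.drop (i * k)).take k = l[i] := by
  induction l generalizing i with
  | nil => simp at hi
  | cons a l ih =>
    have ha : a.length = k := hl a (by simp)
    rw [List.flatten_cons]
    cases i with
    | zero =>
      rw [zero_mul, List.drop_zero, List.take_left' ha]
      rfl
    | succ i =>
      have h1 : (i + 1) * k = k + i * k := by ring
      rw [h1, ← List.drop_drop, List.drop_left' ha]
      exact ih (fun b hb => hl b (by simp [hb])) i (by simpa using hi)

theorem bs_flatten (F : List X → ℝ) (m k : ℕ) (y : Fin m → Fin k → X) :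
    bs F m k (List.ofFn fun i => List.ofFn (y i)).flatten = ∑ i, F (List.ofFn (y i)) := by
  unfold bs
  rw [sum_range]
  refine sum_congr rfl fun i _ => ?_
  rw [S4_block k (List.ofFn fun i => List.ofFn (y i)) (by
    intro a ha
    rw [List.mem_ofFn] at ha
    obtain ⟨j, rfl⟩ := ha
    exact List.length_ofFn) i (by simp)]
  rw [List.getElem_ofFn]

theorem le_bs {F : List X → ℝ} {L m k : ℕ} (h0 : F [] ≤ 0)
    (hs : ∀ s s' : List X, s.length + s'.length ≤ L → F (s ++ s') ≤ F s + F s') (hL : m * k ≤ L)
    (s : List X) (h : s.length = m * k) : F s ≤ bs F m k s := by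
  induction m generalizing s with
  | zero =>
    have h1 : s = [] := by
      apply List.eq_nil_of_length_eq_zero
      rw [h, zero_mul]
    subst h1
    simpa [bs] using h0
  | succ m ih =>
    have hmk : (m + 1) * k = m * k + k := by ring
    have h1 : (s.take (m * k)).length = m * k := by
      rw [List.length_take, h]
      omega
    have h2 : (s.drop (m * k)).length = k := by
      rw [List.length_drop, h]
      omega
    have h3 := ih (by omega) (s.take (m * k)) h1
    have h4 := hs (s.take (m * k)) (s.drop (m * k)) (by omega)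
    rw [List.take_append_drop] at h4
    have h5 : bs F m k (s.take (m * k)) = bs F m k s := by
      unfold bs
      refine sum_congr rfl fun i hi => ?_
      rw [mem_range] at hi
      have h6 : i * k + k ≤ m * k := by
        calc i * k + k = (i + 1) * k := by ring
          _ ≤ m * k := Nat.mul_le_mul_right k hi
      rw [List.drop_take, List.take_take, min_eq_left (by omega)]
    have h7 : bs F (m + 1) k s = bs F m k s + F (s.drop (m * k)) := by
      unfold bs
      rw [sum_range_succ, List.take_of_length_le h2.le]
    rw [h7]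
    linarith

end Pool.Agent.PS
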