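import Pool.Agent.LibPS62.S4

/-!
# [PO57 S5] Chebyshev, the defect

* `chebyshev`: `H := G - E G` has `E1 r H = 0`; `(∑ i, H (z i)) ^ 2 = ∑ i, ∑ j, H (z i) * H (z j)`,
  the expectation of the terms `i ≠ j` is `0` (`Ev_two`), of the others `≤ M ^ 2` (`Ev_one`); then
  `P1_markov` for the square, `a = s ^ 2`.
* `bs_conc`: `Ev_blocks` for the function `fun s => if .. then 1 else 0`, `bs_flatten`, `chebyshev`.
* `defect`: `Ev_append`, `Ev_blocks`, `bs_flatten`, `Ev_one`.
-/

set_option autoImplicit false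

namespace Pool.Agent.PS

open Finset

theorem chebyshev {Y : Type} [Fintype Y] {r : Y → ℝ} (h : IsPr r) (m : ℕ) (G : Y → ℝ) {M s : ℝ}
    (hG : ∀ y, |G y - E1 r G| ≤ M) (hs : 0 < s) :
    Pb r (fun z : Fin m → Y => s < |∑ i, G (z i) - m * E1 r G|) ≤ m * M ^ 2 / s ^ 2 := by
  have hpq : IsPr (pq r : (Fin m → Y) → ℝ) := isPr_pq h
  set H : Y → ℝ := fun y => G y - E1 r G with hH
  have hH0 : E1 r H = 0 := by
    rw [hH, E1_sub, h.E1_const, sub_self]
  have hsum : ∀ z : Fin m → Y, ∑ i, G (z i) - m * E1 r G = ∑ i, H (z i) := by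
    intro z
    simp only [hH, Finset.sum_sub_distrib, Finset.sum_const, Finset.card_univ, Fintype.card_fin,
      nsmul_eq_mul]
  have h1 : Pb r (fun z : Fin m → Y => s < |∑ i, G (z i) - m * E1 r G|) ≤
      P1 (pq r) (fun z : Fin m → Y => s ^ 2 < (∑ i, H (z i)) ^ 2) := by
    rw [Pb_eq]
    refine P1_mono hpq fun z hz => ?_
    rw [hsum] at hz
    rw [← sq_abs (∑ i, H (z i))]
    exact pow_lt_pow_left₀ hz hs.le two_ne_zero
  have h2 : P1 (pq r) (fun z : Fin m → Y => s ^ 2 < (∑ i, H (z i)) ^ 2) ≤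
      E1 (pq r) (fun z : Fin m → Y => (∑ i, H (z i)) ^ 2) / s ^ 2 :=
    P1_markov hpq (fun z => sq_nonneg _) (by positivity)
  have h3 : E1 (pq r) (fun z : Fin m → Y => (∑ i, H (z i)) ^ 2) =
      ∑ i : Fin m, ∑ j : Fin m, Ev r (fun z : Fin m → Y => H (z i) * H (z j)) := by
    have h4 : (fun z : Fin m → Y => (∑ i, H (z i)) ^ 2) =
        fun z => ∑ i ∈ Finset.univ, (fun (i : Fin m) (z : Fin m → Y) =>
          ∑ j ∈ Finset.univ, (fun (j : Fin m) (z : Fin m → Y) => H (z i) * H (z j)) j z) i z := by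
      funext z
      rw [sq, Finset.sum_mul_sum]
    rw [h4, E1_sum]
    refine Finset.sum_congr rfl fun i _ => ?_
    rw [E1_sum]
    rfl
  have h5 : ∀ i j : Fin m, Ev r (fun z : Fin m → Y => H (z i) * H (z j)) ≤
      if i = j then M ^ 2 else 0 := by
    intro i j
    by_cases hij : i = j
    · subst hij
      rw [if_pos rfl, Ev_one h i (fun y => H y * H y)]
      refine (h.E1_mono (g := fun _ => M ^ 2) fun y => ?_).trans (h.E1_const _).le
      rw [← sq, ← sq_abs]
      exact pow_le_pow_left₀ (abs_nonneg _) (hG y) 2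
    · rw [if_neg hij, Ev_two h hij (fun x y => H x * H y)]
      refine le_of_eq ?_
      have h6 : (fun x => E1 r fun y => H x * H y) = fun _ => (0 : ℝ) := by
        funext x
        rw [E1_mul, hH0, mul_zero]
      rw [h6, h.E1_const]
  have h6 : E1 (pq r) (fun z : Fin m → Y => (∑ i, H (z i)) ^ 2) ≤ m * M ^ 2 := by
    rw [h3]
    refine (Finset.sum_le_sum fun i _ => Finset.sum_le_sum fun j _ => h5 i j).trans ?_
    simp
  refine h1.trans (h2.trans ?_)
  gcongr

variable {X : Type} [Fintype X] {q : X → ℝ}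

private theorem S5_av {k : ℕ} (hk : 0 < k) (F : List X → ℝ) :
    (k : ℝ) * av q F k = E1 (pq q) (fun y : Fin k → X => F (List.ofFn y)) := by
  have hk' : (k : ℝ) ≠ 0 := by exact_mod_cast hk.ne'
  unfold av
  rw [mul_div_cancel₀ _ hk']
  rfl

theorem bs_conc (h : IsPr q) {F : List X → ℝ} {c C : ℝ} {m k : ℕ} (hk : 0 < k)
    (hF : ∀ s : List X, s.length = k → -c * k ≤ F s ∧ F s ≤ C * k) {s : ℝ} (hs : 0 < s) :
    P1 (pq q) (fun z : Fin (m * k) → X => s < |bs F m k (List.ofFn z) - m * k * av q F k|) ≤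
      m * ((c + C) * k) ^ 2 / s ^ 2 := by
  classical
  have hpq : IsPr (pq q : (Fin k → X) → ℝ) := isPr_pq h
  set G : (Fin k → X) → ℝ := fun y => F (List.ofFn y) with hGd
  have hE : (m : ℝ) * k * av q F k = m * E1 (pq q) G := by
    rw [mul_assoc, S5_av hk F]
  have hkr : (0 : ℝ) ≤ k := Nat.cast_nonneg k
  have hav := av_mem h hk hF
  have hE2 : E1 (pq q) G = k * av q F k := (S5_av hk F).symm
  have hM : ∀ y, |G y - E1 (pq q) G| ≤ (c + C) * k := by
    intro y
    have h1 := hF (List.ofFn y) (List.length_ofFn)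
    have h2 : -c * k ≤ E1 (pq q) G := by
      rw [hE2, mul_comm (k : ℝ)]
      exact mul_le_mul_of_nonneg_right hav.1 hkr
    have h3 : E1 (pq q) G ≤ C * k := by
      rw [hE2, mul_comm (k : ℝ)]
      exact mul_le_mul_of_nonneg_right hav.2 hkr
    rw [abs_le]
    constructor
    · have h4 : -c * k ≤ G y := h1.1
      linarith
    · have h4 : G y ≤ C * k := h1.2
      linarith
  have key := chebyshev hpq m G hM hs
  refine le_trans (le_of_eq ?_) key
  have h5 := Ev_blocks q m k
    (fun l => if s < |bs F m k l - m * k * av q F k| then (1 : ℝ) else 0)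
  have h6 : P1 (pq q) (fun z : Fin (m * k) → X =>
      s < |bs F m k (List.ofFn z) - m * k * av q F k|) =
      Ev q (fun z : Fin (m * k) → X =>
        if s < |bs F m k (List.ofFn z) - m * k * av q F k| then (1 : ℝ) else 0) := by
    unfold P1 Ev
    congr 1
  rw [h6, h5]
  unfold Pb
  congr 1
  funext y
  rw [bs_flatten, hE]

theorem defect (h : IsPr q) (F : List X → ℝ) {m k : ℕ} (hm : 0 < m) (hk : 0 < k) :
    E1 (pq q) (fun x : Fin (m * k) → X => E1 (pq q) fun y : Fin (m * k) → X =>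
      bs F m k (List.ofFn x) + bs F m k (List.ofFn y) - F (List.ofFn x ++ List.ofFn y)) =
      2 * (m * k) * (av q F k - av q F (2 * (m * k))) := by
  have hpqk : IsPr (pq q : (Fin k → X) → ℝ) := isPr_pq h
  have hpq : IsPr (pq q : (Fin (m * k) → X) → ℝ) := isPr_pq h
  have h1 : E1 (pq q) (fun x : Fin (m * k) → X => bs F m k (List.ofFn x)) =
      m * k * av q F k := by
    have h2 := Ev_blocks q m k (fun l => bs F m k l)
    rw [Ev_eq] at h2
    rw [h2]
    simp only [bs_flatten]
    rw [Ev_eq, E1_sum Finset.univ (fun (i : Fin m) (y : Fin m → Fin k → X) => F (List.ofFn (y i)))]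
    have h3 : ∀ i ∈ (Finset.univ : Finset (Fin m)),
        E1 (pq (pq q)) (fun y : Fin m → Fin k → X => F (List.ofFn (y i))) = k * av q F k := by
      intro i _
      have h4 := Ev_one hpqk i (fun x : Fin k → X => F (List.ofFn x))
      rw [Ev_eq] at h4
      rw [h4, S5_av hk F]
    rw [Finset.sum_congr rfl h3, Finset.sum_const, Finset.card_univ, Fintype.card_fin,
      nsmul_eq_mul, mul_assoc]
  have h2 : E1 (pq q) (fun x : Fin (m * k) → X => E1 (pq q) fun y : Fin (m * k) → X =>
      F (List.ofFn x ++ List.ofFn y)) = 2 * (m * k) * av q F (2 * (m * k)) := by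
    rw [← Ev_append q (m * k) F]
    have h3 := S5_av (q := q) (k := 2 * (m * k)) (by positivity) F
    rw [Ev_eq, ← h3]
    push_cast
    ring
  have h3 : (fun x : Fin (m * k) → X => E1 (pq q) fun y : Fin (m * k) → X =>
      bs F m k (List.ofFn x) + bs F m k (List.ofFn y) - F (List.ofFn x ++ List.ofFn y)) =
      fun x => (bs F m k (List.ofFn x) + m * k * av q F k) -
        E1 (pq q) fun y : Fin (m * k) → X => F (List.ofFn x ++ List.ofFn y) := by
    funext x
    rw [E1_sub (fun y : Fin (m * k) → X => bs F m k (List.ofFn x) + bs F m k (List.ofFn y)),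
      E1_add (fun _ : Fin (m * k) → X => bs F m k (List.ofFn x)), hpq.E1_const, h1]
  rw [h3, E1_sub (fun x : Fin (m * k) → X => bs F m k (List.ofFn x) + m * k * av q F k),
    E1_add (fun x : Fin (m * k) → X => bs F m k (List.ofFn x)), hpq.E1_const, h1, h2]
  ring

end Pool.Agent.PS
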