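import Pool.Agent.LibPS62.S5

/-!
# [PO57 S6] Choice of the scale

* `exists_small_drop`: telescoping (`Finset.sum_range_sub'`).
* `exists_scale`: `k_i = (2 * m) ^ i`, `a i = ∑ j, av q (F j) (k_i)`: `a 0 - a R ≤ (c + C) * J`
  (`av_mem`); every term decreases (`av_mul_le`, `k_(i+1) = (2 * m) * k_i`; `F j [] ≤ 0` by the second
  hypothesis). `exists_small_drop` gives `i < R` with `a i - a (i + 1) ≤ δ`; all terms of the sum are
  `≥ 0`, so each is `≤ δ`.
* `two_markov`: `Ev_two`, `P1_markov`.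
-/

set_option autoImplicit false

namespace Pool.Agent.PS

open Finset

theorem exists_small_drop {a : ℕ → ℝ} {R : ℕ} {δ D : ℝ} (hR : 0 < R) (hD : D ≤ R * δ)
    (ha : a 0 - a R ≤ D) : ∃ i < R, a i - a (i + 1) ≤ δ := by
  by_contra hcon
  push Not at hcon
  have h1 : ∑ i ∈ range R, δ < ∑ i ∈ range R, (a i - a (i + 1)) := by
    apply Finset.sum_lt_sum_of_nonempty
    · exact ⟨0, by simpa using hR⟩
    · intro i hi
      exact hcon i (by simpa using hi)
  rw [Finset.sum_range_sub'] at h1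
  simp only [sum_const, card_range, nsmul_eq_mul] at h1
  linarith

/-- Markov for a function of two coordinates -/
theorem two_markov {ι Y : Type} [Fintype ι] [DecidableEq ι] [Fintype Y] {r : Y → ℝ} (h : IsPr r)
    {i j : ι} (hij : i ≠ j) {f : Y → Y → ℝ} (hf : ∀ x y, 0 ≤ f x y) {a : ℝ} (ha : 0 < a) :
    Pb r (fun z : ι → Y => a < f (z i) (z j)) ≤ E1 r (fun x => E1 r fun y => f x y) / a := by
  rw [Pb_eq, ← Ev_two h hij f, Ev_eq]
  exact P1_markov (isPr_pq h) (fun z => hf (z i) (z j)) ha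

theorem exists_scale {X : Type} [Fintype X] {q : X → ℝ} (h : IsPr q) {J : ℕ}
    {F : Fin J → List X → ℝ} {c C δ : ℝ} {m R L : ℕ} (hm : 0 < m) (hR : 0 < R)
    (hL : (2 * m) ^ R ≤ L) (hδ : (c + C) * J ≤ R * δ)
    (hs : ∀ j (s s' : List X), s.length + s'.length ≤ L → F j (s ++ s') ≤ F j s + F j s')
    (hb : ∀ j (s : List X), s.length ≤ L → -c * s.length ≤ F j s ∧ F j s ≤ C * s.length) :
    ∃ i < R, ∀ j, av q (F j) ((2 * m) ^ i) - av q (F j) (2 * (m * (2 * m) ^ i)) ≤ δ := by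
  have h2m : 0 < 2 * m := by omega
  have hpos : ∀ i, 0 < (2 * m) ^ i := fun i => pow_pos h2m i
  have hle : ∀ i, i ≤ R → (2 * m) ^ i ≤ L := fun i hi =>
    (Nat.pow_le_pow_right h2m hi).trans hL
  have h0 : ∀ j, F j [] ≤ 0 := by
    intro j
    have := (hb j [] (by simp)).2
    simpa using this
  have hmem : ∀ i, i ≤ R → ∀ j, -c ≤ av q (F j) ((2 * m) ^ i) ∧ av q (F j) ((2 * m) ^ i) ≤ C := by
    intro i hi j
    apply av_mem h (hpos i)
    intro s hs'
    have := hb j s (by rw [hs']; exact hle i hi)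
    rw [hs'] at this
    exact this
  obtain ⟨i, hi, hdrop⟩ := exists_small_drop (a := fun i => ∑ j, av q (F j) ((2 * m) ^ i)) hR hδ
    (by
      have : ∑ j : Fin J, av q (F j) ((2 * m) ^ 0) - ∑ j : Fin J, av q (F j) ((2 * m) ^ R) ≤
          ∑ j : Fin J, (c + C) := by
        rw [← Finset.sum_sub_distrib]
        apply Finset.sum_le_sum
        intro j _
        have h1 := (hmem 0 (Nat.zero_le _) j).2
        have h2 := (hmem R le_rfl j).1
        linarith
      simp only [sum_const, card_univ, Fintype.card_fin, nsmul_eq_mul] at this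
      show ∑ j : Fin J, av q (F j) ((2 * m) ^ 0) - ∑ j : Fin J, av q (F j) ((2 * m) ^ R) ≤ _
      linarith)
  refine ⟨i, hi, fun j => ?_⟩
  have hdec : ∀ j, av q (F j) (2 * (m * (2 * m) ^ i)) ≤ av q (F j) ((2 * m) ^ i) := by
    intro j
    rw [← mul_assoc]
    apply av_mul_le h h2m (hpos i) (L := L) _ (h0 j) (hs j)
    have := hle (i + 1) hi
    rwa [pow_succ, mul_comm] at this
  have hsum : ∑ j, (av q (F j) ((2 * m) ^ i) - av q (F j) (2 * (m * (2 * m) ^ i))) ≤ δ := by
    rw [Finset.sum_sub_distrib]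
    have e : (2 * (m * (2 * m) ^ i)) = (2 * m) ^ (i + 1) := by ring
    rw [e]
    exact hdrop
  refine le_trans ?_ hsum
  exact Finset.single_le_sum
    (f := fun j => av q (F j) ((2 * m) ^ i) - av q (F j) (2 * (m * (2 * m) ^ i)))
    (fun j _ => by have := hdec j; linarith) (Finset.mem_univ j)

end Pool.Agent.PS
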