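import Pool.Agent.LibPS62.S6

/-!
# [PO57 S7] The probability of the good sequences

`K = m * k`, `e j = av q (F j) k`. Bad events (`P1_mono`, union bound `P1_exists`, `P1_or`):
* for `i`, `j`: `K * t / 2 < |bs (F j) m k (ofFn (z i)) - K * e j|`: probability at most
  `m * ((c + C) * k) ^ 2 / (K * t / 2) ^ 2 = 4 * (c + C) ^ 2 / (m * t ^ 2)` (`Pb_one`, `bs_conc`);
* for `i ≠ i'`, `j`: `K * t < D (z i) (z i')`,
  `D x y = bs (F j) m k (ofFn x) + bs (F j) m k (ofFn y) - F j (ofFn x ++ ofFn y)`, `D ≥ 0` (first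
  hypothesis and `le_bs`): probability at most `2 * K * δ / (K * t)` (`two_markov`, `defect`).
Outside of them `F j (ofFn (z i)) ≤ bs .. ≤ K * (e j + t / 2)` (`le_bs`) and
`F j (..) = bs + bs - D ≥ 2 * K * (e j - t / 2) - K * t = 2 * K * (e j - t)`.
-/

set_option autoImplicit false

namespace Pool.Agent.PS

open Finset

/-- the two conditions of the scale lemma -/
def Good {X : Type} {J N : ℕ} (F : Fin J → List X → ℝ) (K : ℕ) (t : ℝ) (e : Fin J → ℝ)
    (z : Fin N → Fin K → X) : Prop :=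
  (∀ i j, F j (List.ofFn (z i)) ≤ K * (e j + t)) ∧
    ∀ i i', i ≠ i' → ∀ j, 2 * K * (e j - t) ≤ F j (List.ofFn (z i) ++ List.ofFn (z i'))

theorem good_prob {X : Type} [Fintype X] {q : X → ℝ} (h : IsPr q) {J N : ℕ}
    {F : Fin J → List X → ℝ} {c C δ t : ℝ} (hc : 0 ≤ c) (hC : 0 ≤ C) (ht : 0 < t) (hδ : 0 ≤ δ)
    {m k : ℕ} (hm : 0 < m) (hk : 0 < k)
    (hs : ∀ j (s s' : List X), s.length + s'.length ≤ 2 * (m * k) →
      F j (s ++ s') ≤ F j s + F j s')
    (hb : ∀ j (s : List X), s.length ≤ 2 * (m * k) →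
      -c * s.length ≤ F j s ∧ F j s ≤ C * s.length)
    (hd : ∀ j, av q (F j) k - av q (F j) (2 * (m * k)) ≤ δ) :
    Pb (pq q) (fun z : Fin N → Fin (m * k) → X =>
      ¬ Good F (m * k) t (fun j => av q (F j) k) z) ≤
        N * J * (4 * (c + C) ^ 2 / (m * t ^ 2)) + N ^ 2 * J * (2 * δ / t) := by
  classical
  have hr : IsPr (pq q : (Fin (m * k) → X) → ℝ) := isPr_pq h
  have hmR : (0 : ℝ) < m := by exact_mod_cast hm
  have hkR : (0 : ℝ) < k := by exact_mod_cast hk
  have hk1 : k ≤ 2 * (m * k) := by nlinarith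
  have hb' : ∀ j (s : List X), s.length = k → -c * k ≤ F j s ∧ F j s ≤ C * k := by
    intro j s hsl
    have h1 := hb j s (by omega)
    rw [hsl] at h1
    exact h1
  have h00 : ∀ j, F j [] ≤ 0 := by
    intro j
    have h1 := (hb j [] (Nat.zero_le _)).2
    simpa using h1
  have hs1 : ∀ j (s : List X), s.length = m * k → F j s ≤ bs (F j) m k s := fun j s hsl =>
    le_bs (L := 2 * (m * k)) (h00 j) (hs j) (by omega) s hsl
  -- the two kinds of bad events
  let D : Fin J → (Fin (m * k) → X) → (Fin (m * k) → X) → ℝ := fun j x y =>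
    bs (F j) m k (List.ofFn x) + bs (F j) m k (List.ofFn y) - F j (List.ofFn x ++ List.ofFn y)
  have hD : ∀ j x y, 0 ≤ D j x y := by
    intro j x y
    have h1 := hs1 j (List.ofFn x) List.length_ofFn
    have h2 := hs1 j (List.ofFn y) List.length_ofFn
    have h3 := hs j (List.ofFn x) (List.ofFn y) (by simp only [List.length_ofFn]; omega)
    show 0 ≤ bs (F j) m k (List.ofFn x) + bs (F j) m k (List.ofFn y) -
      F j (List.ofFn x ++ List.ofFn y)
    linarith
  let EA : Fin N × Fin J → (Fin N → Fin (m * k) → X) → Prop := fun a z =>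
    (m * k * t / 2 : ℝ) < |bs (F a.2) m k (List.ofFn (z a.1)) - m * k * av q (F a.2) k|
  let EB : (Fin N × Fin N) × Fin J → (Fin N → Fin (m * k) → X) → Prop := fun a z =>
    a.1.1 ≠ a.1.2 ∧ (m * k * t : ℝ) < D a.2 (z a.1.1) (z a.1.2)
  have hsub : ∀ z : Fin N → Fin (m * k) → X,
      ¬ Good F (m * k) t (fun j => av q (F j) k) z →
        (∃ a ∈ (univ : Finset (Fin N × Fin J)), EA a z) ∨
          ∃ a ∈ (univ : Finset ((Fin N × Fin N) × Fin J)), EB a z := by
    intro z hz
    by_contra hcon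
    rw [not_or] at hcon
    obtain ⟨hA, hB⟩ := hcon
    have hA' : ∀ i j, |bs (F j) m k (List.ofFn (z i)) - m * k * av q (F j) k| ≤
        m * k * t / 2 := fun i j => by
      by_contra h1
      exact hA ⟨(i, j), mem_univ _, not_le.1 h1⟩
    have hB' : ∀ i i', i ≠ i' → ∀ j, D j (z i) (z i') ≤ m * k * t := fun i i' hii j => by
      by_contra h1
      exact hB ⟨((i, i'), j), mem_univ _, hii, not_le.1 h1⟩
    apply hz
    have hK : ((m * k : ℕ) : ℝ) = m * k := by push_cast; ring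
    constructor
    · intro i j
      have h1 := hs1 j (List.ofFn (z i)) List.length_ofFn
      have h2 := (abs_le.1 (hA' i j)).2
      have h3 : 0 < (m : ℝ) * k * t := by positivity
      show F j (List.ofFn (z i)) ≤ ((m * k : ℕ) : ℝ) * (av q (F j) k + t)
      rw [hK]
      nlinarith
    · intro i i' hii j
      have h1 := (abs_le.1 (hA' i j)).1
      have h2 := (abs_le.1 (hA' i' j)).1
      have h3 : bs (F j) m k (List.ofFn (z i)) + bs (F j) m k (List.ofFn (z i')) -
        F j (List.ofFn (z i) ++ List.ofFn (z i')) ≤ m * k * t := hB' i i' hii j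
      show 2 * ((m * k : ℕ) : ℝ) * (av q (F j) k - t) ≤ F j (List.ofFn (z i) ++ List.ofFn (z i'))
      rw [hK]
      linarith
  have hr2 : IsPr (pq (pq q : (Fin (m * k) → X) → ℝ) : (Fin N → Fin (m * k) → X) → ℝ) :=
    isPr_pq hr
  have hPA : ∀ a, P1 (pq (pq q)) (EA a) ≤ 4 * (c + C) ^ 2 / (m * t ^ 2) := by
    intro a
    have h1 : P1 (pq (pq q)) (EA a) = P1 (pq q) (fun x : Fin (m * k) → X =>
        (m * k * t / 2 : ℝ) < |bs (F a.2) m k (List.ofFn x) - m * k * av q (F a.2) k|) :=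
      Pb_one hr a.1 (fun x : Fin (m * k) → X =>
        (m * k * t / 2 : ℝ) < |bs (F a.2) m k (List.ofFn x) - m * k * av q (F a.2) k|)
    rw [h1]
    refine (bs_conc h hk (hb' a.2) (by positivity)).trans (le_of_eq ?_)
    field_simp
    ring
  have hPB : ∀ a, P1 (pq (pq q)) (EB a) ≤ 2 * δ / t := by
    intro a
    by_cases hii : a.1.1 = a.1.2
    · have h1 : P1 (pq (pq q)) (EB a) ≤ P1 (pq (pq q)) (fun _ => False) :=
        P1_mono hr2 fun z hz => hz.1 hii
      rw [P1_false] at h1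
      exact h1.trans (by positivity)
    · have h1 : P1 (pq (pq q)) (EB a) ≤ Pb (pq q) (fun z : Fin N → Fin (m * k) → X =>
          (m * k * t : ℝ) < D a.2 (z a.1.1) (z a.1.2)) :=
        P1_mono hr2 fun z hz => hz.2
      refine h1.trans ((two_markov hr hii (hD a.2) (by positivity)).trans ?_)
      rw [show (E1 (pq q) fun x : Fin (m * k) → X => E1 (pq q) fun y => D a.2 x y) =
        2 * (m * k) * (av q (F a.2) k - av q (F a.2) (2 * (m * k))) from defect h (F a.2) hm hk]
      rw [div_le_div_iff₀ (by positivity) ht]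
      have h2 := hd a.2
      have h3 : 0 < (m : ℝ) * k := by positivity
      nlinarith [mul_le_mul_of_nonneg_left h2 (by positivity : (0 : ℝ) ≤ 2 * (m * k) * t)]
  calc Pb (pq q) (fun z : Fin N → Fin (m * k) → X =>
        ¬ Good F (m * k) t (fun j => av q (F j) k) z)
      ≤ P1 (pq (pq q)) (fun z => (∃ a ∈ (univ : Finset (Fin N × Fin J)), EA a z) ∨
          ∃ a ∈ (univ : Finset ((Fin N × Fin N) × Fin J)), EB a z) := P1_mono hr2 hsub
    _ ≤ P1 (pq (pq q)) (fun z => ∃ a ∈ (univ : Finset (Fin N × Fin J)), EA a z) +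
        P1 (pq (pq q)) (fun z => ∃ a ∈ (univ : Finset ((Fin N × Fin N) × Fin J)), EB a z) :=
      P1_or hr2 _ _
    _ ≤ ∑ a ∈ (univ : Finset (Fin N × Fin J)), P1 (pq (pq q)) (EA a) +
        ∑ a ∈ (univ : Finset ((Fin N × Fin N) × Fin J)), P1 (pq (pq q)) (EB a) :=
      add_le_add (P1_exists hr2 _ _) (P1_exists hr2 _ _)
    _ ≤ ∑ _a ∈ (univ : Finset (Fin N × Fin J)), 4 * (c + C) ^ 2 / (m * t ^ 2) +
        ∑ _a ∈ (univ : Finset ((Fin N × Fin N) × Fin J)), 2 * δ / t :=
      add_le_add (sum_le_sum fun a _ => hPA a) (sum_le_sum fun a _ => hPB a)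
    _ = N * J * (4 * (c + C) ^ 2 / (m * t ^ 2)) + N ^ 2 * J * (2 * δ / t) := by
      simp only [sum_const, card_univ, Fintype.card_prod, Fintype.card_fin, nsmul_eq_mul]
      push_cast
      ring

end Pool.Agent.PS
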